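import Pool.Agent.Helper662.Rz.Defs

set_option autoImplicit false
set_option linter.unusedVariables false

namespace Pool.Agent.Helper662.Rz
open Set Filter Topology ComplexConjugate Finset


theorem w_comm {f : ℂ → ℂ} (h : Sm f) (z : ℂ) : dz (dzb f) z = dzb (dz f) z := by
  unfold Sm at h
  have hd : ContDiff ℝ ((⊤ : ℕ∞) : WithTop ℕ∞) (fderiv ℝ f) := by
    apply ContDiff.fderiv_right h
    exact_mod_cast le_top
  have hdd : Differentiable ℝ (fderiv ℝ f) := hd.differentiable (by simp)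
  have hd1 : ∀ v : ℂ, HasFDerivAt (fun w => fderiv ℝ f w v)
      ((ContinuousLinearMap.apply ℝ ℂ v).comp (fderiv ℝ (fderiv ℝ f) z)) z := by
    intro v
    exact (ContinuousLinearMap.apply ℝ ℂ v).hasFDerivAt.comp z (hdd z).hasFDerivAt
  have hsym : ∀ v w : ℂ, fderiv ℝ (fderiv ℝ f) z v w = fderiv ℝ (fderiv ℝ f) z w v := by
    have h2 : IsSymmSndFDerivAt ℝ f z := by
      apply (h.contDiffAt).isSymmSndFDerivAt
      rw [minSmoothness_of_isRCLikeNormedField]
      have : (2 : WithTop ℕ∞) = (((2 : ℕ∞)) : WithTop ℕ∞) := rfl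
      rw [this]
      exact WithTop.coe_le_coe.mpr le_top
    intro v w
    exact h2 v w
  have hzb : HasFDerivAt (dzb f)
      ((1 / 2 : ℂ) • (((ContinuousLinearMap.apply ℝ ℂ (1:ℂ)).comp (fderiv ℝ (fderiv ℝ f) z)) +
        Complex.I • ((ContinuousLinearMap.apply ℝ ℂ Complex.I).comp (fderiv ℝ (fderiv ℝ f) z)))) z := by
    have := ((hd1 1).add ((hd1 Complex.I).const_smul Complex.I)).const_smul (1 / 2 : ℂ)
    refine this.congr_of_eventuallyEq (Filter.Eventually.of_forall ?_)
    intro w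
    simp only [dzb, Pi.add_apply, Pi.smul_apply, smul_eq_mul]
    ring
  have hz : HasFDerivAt (dz f)
      ((1 / 2 : ℂ) • (((ContinuousLinearMap.apply ℝ ℂ (1:ℂ)).comp (fderiv ℝ (fderiv ℝ f) z)) -
        Complex.I • ((ContinuousLinearMap.apply ℝ ℂ Complex.I).comp (fderiv ℝ (fderiv ℝ f) z)))) z := by
    have := ((hd1 1).sub ((hd1 Complex.I).const_smul Complex.I)).const_smul (1 / 2 : ℂ)
    refine this.congr_of_eventuallyEq (Filter.Eventually.of_forall ?_)
    intro w
    simp only [dz, Pi.sub_apply, Pi.smul_apply, smul_eq_mul]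
    ring
  have e1 : dz (dzb f) z = (fderiv ℝ (dzb f) z 1 - Complex.I * fderiv ℝ (dzb f) z Complex.I) / 2 := rfl
  have e2 : dzb (dz f) z = (fderiv ℝ (dz f) z 1 + Complex.I * fderiv ℝ (dz f) z Complex.I) / 2 := rfl
  rw [e1, e2, hzb.fderiv, hz.fderiv]
  simp only [smul_apply, add_apply,
    sub_apply, ContinuousLinearMap.comp_apply,
    ContinuousLinearMap.apply_apply, smul_eq_mul]
  rw [hsym Complex.I 1]
  ring

end Pool.Agent.Helper662.Rz
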