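import Pool.Agent.Helper662.Rz.Defs

set_option autoImplicit false
set_option linter.unusedVariables false

namespace Pool.Agent.Helper662.Rz
open Set Filter Topology ComplexConjugate Finset


theorem w_conj {φ : ℂ → ℝ} (h : SmR φ) (z : ℂ) : dzb (cR φ) z = conj (dz (cR φ) z) := by
  have hd : DifferentiableAt ℝ φ z := (ContDiff.differentiable h (by simp)) z
  have key : ∀ v : ℂ, fderiv ℝ (cR φ) z v = ((fderiv ℝ φ z v : ℝ) : ℂ) := by
    intro v
    have h1 : HasFDerivAt (cR φ) (Complex.ofRealCLM.comp (fderiv ℝ φ z)) z :=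
      Complex.ofRealCLM.hasFDerivAt.comp z hd.hasFDerivAt
    rw [h1.fderiv]
    rfl
  unfold dz dzb
  rw [key, key]
  simp only [map_div₀, map_sub, map_mul, Complex.conj_ofReal, Complex.conj_I, map_ofNat]
  ring

end Pool.Agent.Helper662.Rz
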