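import Pool.Agent.Helper662.Rz.Defs

set_option autoImplicit false
set_option linter.unusedVariables false

namespace Pool.Agent.Helper662.Rz
open Set Filter Topology ComplexConjugate Finset


theorem w_fderiv {f : ℂ → ℂ} {z : ℂ} (h : DifferentiableAt ℝ f z) (v : ℂ) :
    fderiv ℝ f z v = dz f z * v + dzb f z * conj v := by
  have hv : v = v.re • (1 : ℂ) + v.im • Complex.I := by
    rw [Complex.real_smul, Complex.real_smul, mul_one]
    exact (Complex.re_add_im v).symm
  have hL : fderiv ℝ f z v = (v.re : ℂ) * fderiv ℝ f z 1 + (v.im : ℂ) * fderiv ℝ f z Complex.I := by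
    conv_lhs => rw [hv]
    rw [map_add, map_smul, map_smul, Complex.real_smul, Complex.real_smul]
  rw [hL]
  unfold dz dzb
  have h1 : v = (v.re : ℂ) + (v.im : ℂ) * Complex.I := (Complex.re_add_im v).symm
  have h2 : conj v = (v.re : ℂ) - (v.im : ℂ) * Complex.I := by
    apply Complex.ext <;> simp
  rw [h2]
  generalize fderiv ℝ f z 1 = p
  generalize fderiv ℝ f z Complex.I = q
  have hI : Complex.I ^ 2 = -1 := Complex.I_sq
  have : (p - Complex.I * q) / 2 * v = (p - Complex.I * q) / 2 * ((v.re : ℂ) + (v.im : ℂ) * Complex.I) := by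
    rw [← h1]
  rw [this]
  linear_combination ((v.im : ℂ) * q) * hI

end Pool.Agent.Helper662.Rz
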