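import Pool.Agent.Helper662.Rz.Defs

set_option autoImplicit false
set_option linter.unusedVariables false

namespace Pool.Agent.Helper662.Rz
open Set Filter Topology ComplexConjugate Finset


theorem w_smooth {f : ℂ → ℂ} (h : Sm f) : Sm (dz f) ∧ Sm (dzb f) := by
  have h1 : ∀ v : ℂ, ContDiff ℝ ((⊤ : ℕ∞) : WithTop ℕ∞) (fun z => fderiv ℝ f z v) := by
    intro v
    have h2 : ContDiff ℝ ((⊤ : ℕ∞) : WithTop ℕ∞) (fun z => fderiv ℝ f z) :=
      ContDiff.fderiv_right (m := ((⊤ : ℕ∞) : WithTop ℕ∞)) h (by simp)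
    exact h2.clm_apply contDiff_const
  constructor
  · unfold Sm dz
    exact (((h1 1).sub (contDiff_const.mul (h1 Complex.I)))).div_const 2
  · unfold Sm dzb
    exact (((h1 1).add (contDiff_const.mul (h1 Complex.I)))).div_const 2

end Pool.Agent.Helper662.Rz
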