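import Pool.Agent.Helper662.Rz.Defs
import Pool.Agent.Helper662.Rz.P_w_smooth

set_option autoImplicit false
set_option linter.unusedVariables false

namespace Pool.Agent.Helper662.Rz
open Set Filter Topology ComplexConjugate Finset


theorem w_smR {φ : ℂ → ℝ} (h : SmR φ) : Sm (cR φ) ∧ SmR (th φ) := by
  have h1 : Sm (cR φ) := by
    unfold Sm cR
    exact (Complex.ofRealCLM.contDiff (n := ((⊤ : ℕ∞) : WithTop ℕ∞))).comp h
  refine ⟨h1, ?_⟩
  have h2 := (w_smooth (w_smooth h1).1).2
  unfold SmR th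
  exact (Complex.reCLM.contDiff (n := ((⊤ : ℕ∞) : WithTop ℕ∞))).comp h2

end Pool.Agent.Helper662.Rz
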