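import Pool.Agent.Helper662.Rz.Defs
import Pool.Agent.Helper662.Rz.P_s_summ

set_option autoImplicit false
set_option linter.unusedVariables false

namespace Pool.Agent.Helper662.Rz
open Set Filter Topology ComplexConjugate Finset


theorem S_basic {K : ℕ → ℕ} (hK : ∀ j, 1 ≤ K j) {x : ℝ} (hx : 0 ≤ x) :
    1 ≤ S K x ∧ x ≤ S K x ∧ (∀ j, 1 + s K j x ≤ S K x) ∧
      (∀ J, ∑ j ∈ range J, s K j x ≤ S K x) := by
  have hs := (s_summ K hx).1
  have hnn : ∀ j, 0 ≤ s K j x := fun j => by
    unfold s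
    exact Finset.sum_nonneg fun k _ => pow_nonneg (div_nonneg hx (by positivity)) _
  have hJ : ∀ J, ∑ j ∈ range J, s K j x ≤ ∑' j, s K j x := fun J =>
    hs.sum_le_tsum _ fun j _ => hnn j
  have hj : ∀ j, s K j x ≤ ∑' j, s K j x := fun j => hs.le_tsum j fun j _ => hnn j
  have h0 : 0 ≤ ∑' j, s K j x := tsum_nonneg hnn
  have hx0 : x ≤ s K 0 x := by
    unfold s
    have h1 : (0 : ℕ) ∈ range (K 0) := Finset.mem_range.2 (hK 0)
    have h2 := Finset.single_le_sum (f := fun k => (x / 4 ^ 0) ^ (k + 1))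
      (fun k _ => pow_nonneg (div_nonneg hx (by positivity)) _) h1
    simpa using h2
  unfold S
  refine ⟨by linarith, by linarith [hj 0], fun j => by linarith [hj j], fun J => by linarith [hJ J]⟩

end Pool.Agent.Helper662.Rz
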