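import Pool.Agent.Helper662.Rz.Defs

set_option autoImplicit false
set_option linter.unusedVariables false

namespace Pool.Agent.Helper662.Rz
open Set Filter Topology ComplexConjugate Finset


theorem t3 (N : ℕ) {y : ℝ} (hy : 0 ≤ y) :
    ∑ k ∈ range N, ((k : ℝ) + 1) * y ^ (k + 1) ≤
      2 * (∑ k ∈ range N, y ^ (k + 1)) + (∑ k ∈ range N, y ^ (k + 1)) ^ 2 := by
  have h1 : ∑ m ∈ range (N + 1), ((m : ℝ) + 1) * y ^ m ≤ (∑ m ∈ range (N + 1), y ^ m) ^ 2 := by
    calc ∑ m ∈ range (N + 1), ((m : ℝ) + 1) * y ^ m =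
          ∑ m ∈ range (N + 1), ∑ k ∈ range (m + 1), y ^ k * y ^ (m - k) := by
          apply Finset.sum_congr rfl
          intro m _
          have h2 : ∀ k ∈ range (m + 1), y ^ k * y ^ (m - k) = y ^ m := by
            intro k hk
            rw [← pow_add, Nat.add_sub_cancel' (Nat.lt_succ_iff.1 (Finset.mem_range.1 hk))]
          rw [Finset.sum_congr rfl h2, Finset.sum_const, Finset.card_range, nsmul_eq_mul]
          push_cast
          rfl
      _ = ∑ m ∈ range (N + 1), ∑ k ∈ range (N + 1 - m), y ^ m * y ^ k :=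
          Finset.sum_range_diag_flip (N + 1) (fun m k => y ^ m * y ^ k)
      _ ≤ ∑ m ∈ range (N + 1), ∑ k ∈ range (N + 1), y ^ m * y ^ k := by
          apply Finset.sum_le_sum
          intro m _
          apply Finset.sum_le_sum_of_subset_of_nonneg
          · exact Finset.range_subset_range.2 (Nat.sub_le _ _)
          · intro k _ _
            positivity
      _ = (∑ m ∈ range (N + 1), y ^ m) ^ 2 := by rw [sq, Finset.sum_mul_sum]
  rw [Finset.sum_range_succ', Finset.sum_range_succ'] at h1
  have h3 : ∑ k ∈ range N, ((k : ℝ) + 1) * y ^ (k + 1) ≤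
      ∑ k ∈ range N, (((k + 1 : ℕ) : ℝ) + 1) * y ^ (k + 1) := by
    apply Finset.sum_le_sum
    intro k _
    have := pow_nonneg hy (k + 1)
    push_cast
    nlinarith
  simp only [Nat.cast_zero, zero_add, pow_zero, mul_one] at h1
  nlinarith

end Pool.Agent.Helper662.Rz
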