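import Pool.Agent.Helper662.Rz.Defs
import Pool.Agent.Helper662.Rz.P_n_deriv
import Pool.Agent.Helper662.Rz.P_n_hasDeriv
import Pool.Agent.Helper662.Rz.P_u_np

set_option autoImplicit false
set_option linter.unusedVariables false

namespace Pool.Agent.Helper662.Rz
open Set Filter Topology ComplexConjugate Finset


theorem eval_abs_le (q : Polynomial ℝ) (hq : ∀ n, 0 ≤ q.coeff n) (x : ℝ) :
    |q.eval x| ≤ q.eval |x| := by
  rw [Polynomial.eval_eq_sum_range, Polynomial.eval_eq_sum_range]
  refine (Finset.abs_sum_le_sum_abs _ _).trans (le_of_eq ?_)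
  refine Finset.sum_congr rfl fun n _ => ?_
  rw [abs_mul, abs_pow, abs_of_nonneg (hq n)]

theorem np_summable {p : ℕ → Polynomial ℝ} (h : NP p) (x : ℝ) :
    Summable (fun j => (p j).eval x) := by
  apply Summable.of_norm_bounded (h.2 |x| (abs_nonneg x))
  intro j
  rw [Real.norm_eq_abs]
  exact eval_abs_le _ (h.1 j) x

theorem u_d2 (K : ℕ → ℕ) (x : ℝ) : x * lp (u K) x = ∑' j, ds K j x := by
  have hp := (u_np K).1
  have hp1 := n_deriv hp
  have hp2 := n_deriv hp1
  have e1 : deriv (u K) = TS (DP (uP K)) := by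
    funext y
    exact (n_hasDeriv hp y).deriv
  have e2 : deriv (TS (DP (uP K))) = TS (DP (DP (uP K))) := by
    funext y
    exact (n_hasDeriv hp1 y).deriv
  unfold lp
  rw [e1, e2]
  unfold TS
  have s1 := np_summable hp1 x
  have s2 := np_summable hp2 x
  rw [← tsum_mul_left, ← Summable.tsum_add s1 (s2.mul_left x), ← tsum_mul_left]
  refine tsum_congr fun j => ?_
  unfold DP uP ds
  simp only [Polynomial.derivative_sum, Polynomial.derivative_C_mul_X_pow, Polynomial.eval_finset_sum,
    Polynomial.eval_mul, Polynomial.eval_C, Polynomial.eval_pow, Polynomial.eval_X]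
  rw [Finset.mul_sum, ← Finset.sum_add_distrib, Finset.mul_sum]
  refine Finset.sum_congr rfl fun k _ => ?_
  have h4 : ((4:ℝ) ^ (j * (k + 1))) ≠ 0 := by positivity
  have hk : ((k:ℝ) + 1) ≠ 0 := by positivity
  rw [div_pow, ← pow_mul]
  rcases k with _ | k
  · simp
    field_simp
  · simp only [Nat.add_sub_cancel]
    push_cast
    field_simp
    ring

end Pool.Agent.Helper662.Rz
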