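import Pool.Agent.Helper662.Rz.Defs
import Pool.Agent.Helper662.Rz.P_u_np
import Pool.Agent.Helper662.Rz.P_s_summ
import Pool.Agent.Helper662.Rz.P_one_add_le_exp

set_option autoImplicit false
set_option linter.unusedVariables false

namespace Pool.Agent.Helper662.Rz
open Set Filter Topology ComplexConjugate Finset


theorem S_le_exp (K : ℕ → ℕ) {x : ℝ} (hx : 0 ≤ x) : S K x ≤ Real.exp (u K x) := by
  have hs0 : ∀ j, 0 ≤ s K j x := by
    intro j
    unfold s
    exact Finset.sum_nonneg fun k _ => pow_nonneg (div_nonneg hx (by positivity)) _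
  have hH : ∀ j, (uP K j).eval x =
      ∑ k ∈ range (K j), (x / 4 ^ j) ^ (k + 1) / ((k : ℝ) + 1) := by
    intro j
    unfold uP
    rw [Polynomial.eval_finsetSum]
    apply Finset.sum_congr rfl
    intro k _
    rw [Polynomial.eval_mul, Polynomial.eval_C, Polynomial.eval_pow, Polynomial.eval_X, div_pow,
      ← pow_mul]
    field_simp
  have hH0 : ∀ j, 0 ≤ (uP K j).eval x := by
    intro j
    rw [hH]
    exact Finset.sum_nonneg fun k _ =>
      div_nonneg (pow_nonneg (div_nonneg hx (by positivity)) _) (by positivity)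
  have h1 : ∀ j, 1 + s K j x ≤ Real.exp ((uP K j).eval x) := by
    intro j
    rw [hH]
    exact one_add_le_exp (K j) (div_nonneg hx (by positivity))
  have h2 : ∀ J : ℕ, 1 + ∑ j ∈ range J, s K j x ≤
      Real.exp (∑ j ∈ range J, (uP K j).eval x) := by
    intro J
    induction J with
    | zero => simp
    | succ J ih =>
      rw [Finset.sum_range_succ, Finset.sum_range_succ, Real.exp_add]
      have hsum : 0 ≤ ∑ j ∈ range J, s K j x := Finset.sum_nonneg fun j _ => hs0 j
      have h3 : 1 + (∑ j ∈ range J, s K j x + s K J x) ≤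
          (1 + ∑ j ∈ range J, s K j x) * (1 + s K J x) := by
        have := mul_nonneg hsum (hs0 J)
        nlinarith
      refine h3.trans ?_
      apply mul_le_mul ih (h1 J)
      · linarith [hs0 J]
      · exact Real.exp_nonneg _
  have hnp := ((u_np K).1).2 x hx
  have h4 : ∀ J : ℕ, ∑ j ∈ range J, s K j x ≤ Real.exp (u K x) - 1 := by
    intro J
    have h5 : ∑ j ∈ range J, (uP K j).eval x ≤ u K x :=
      hnp.sum_le_tsum (range J) (fun j _ => hH0 j)
    have h6 := Real.exp_le_exp.2 h5
    have h7 := h2 J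
    linarith
  have h8 : ∑' j, s K j x ≤ Real.exp (u K x) - 1 :=
    Real.tsum_le_of_sum_range_le hs0 h4
  unfold S
  linarith
end Pool.Agent.Helper662.Rz
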