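import Pool.Agent.Helper662.Rz.Defs
import Pool.Agent.Helper662.Rz.P_n_deriv
import Pool.Agent.Helper662.Rz.P_n_hasDeriv
import Pool.Agent.Helper662.Rz.P_n_mono
import Pool.Agent.Helper662.Rz.P_u_np

set_option autoImplicit false
set_option linter.unusedVariables false

namespace Pool.Agent.Helper662.Rz
open Set Filter Topology ComplexConjugate Finset


theorem p_d_aux_sum {p : ℕ → Polynomial ℝ} (h : NP p) (x : ℝ) :
    Summable (fun j => (p j).eval x) := by
  refine Summable.of_norm_bounded (g := fun j => (p j).eval |x|) (h.2 |x| (abs_nonneg x)) ?_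
  intro j
  rw [Polynomial.eval_eq_sum_range, Polynomial.eval_eq_sum_range, Real.norm_eq_abs]
  refine (Finset.abs_sum_le_sum_abs _ _).trans (Finset.sum_le_sum (fun n _ => ?_))
  rw [abs_mul, abs_pow, abs_of_nonneg (h.1 j n)]

theorem p_d_aux_term (K : ℕ → ℕ) (x : ℝ) (j : ℕ) :
    x * (DP (pP K) j).eval x + x ^ 2 * (DP (DP (pP K)) j).eval x =
      (2 * (K j : ℝ) + 1) ^ 2 * (x / 4 ^ j) ^ (2 * K j + 1) := by
  have h1 : DP (pP K) j = Polynomial.C (1 / 4 ^ (j * (2 * K j + 1)) * (2 * (K j : ℝ) + 1)) *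
      Polynomial.X ^ (2 * K j) := by
    unfold DP pP
    rw [Polynomial.derivative_C_mul, Polynomial.derivative_X_pow, Nat.add_sub_cancel, ← mul_assoc,
      ← Polynomial.C_mul]
    push_cast
    rfl
  have h2 : DP (DP (pP K)) j =
      Polynomial.C (1 / 4 ^ (j * (2 * K j + 1)) * (2 * (K j : ℝ) + 1) * (2 * (K j : ℝ))) *
      Polynomial.X ^ (2 * K j - 1) := by
    show Polynomial.derivative (DP (pP K) j) = _
    rw [h1, Polynomial.derivative_C_mul, Polynomial.derivative_X_pow, ← mul_assoc,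
      ← Polynomial.C_mul]
    push_cast
    rfl
  rw [h1, h2, Polynomial.eval_mul, Polynomial.eval_mul, Polynomial.eval_C, Polynomial.eval_C,
    Polynomial.eval_pow, Polynomial.eval_pow, Polynomial.eval_X]
  have h3 : (x / 4 ^ j) ^ (2 * K j + 1) = 1 / 4 ^ (j * (2 * K j + 1)) * (x ^ (2 * K j) * x) := by
    rw [div_pow, ← pow_mul, pow_succ]
    ring
  rw [h3]
  rcases Nat.eq_zero_or_pos (K j) with h0 | h0
  · rw [h0]
    push_cast
    ring
  · have h4 : x ^ 2 * x ^ (2 * K j - 1) = x ^ (2 * K j) * x := by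
      rw [← pow_add, ← pow_succ]
      congr 1
      omega
    have h5 : x ^ 2 * (1 / 4 ^ (j * (2 * K j + 1)) * (2 * (K j : ℝ) + 1) * (2 * (K j : ℝ)) *
        x ^ (2 * K j - 1)) = 1 / 4 ^ (j * (2 * K j + 1)) * (2 * (K j : ℝ) + 1) * (2 * (K j : ℝ)) *
        (x ^ 2 * x ^ (2 * K j - 1)) := by ring
    rw [h5, h4]
    ring

theorem p_d (K : ℕ → ℕ) (x : ℝ) :
    x * lp (P K) x = ∑' j, (2 * (K j : ℝ) + 1) ^ 2 * (x / 4 ^ j) ^ (2 * K j + 1) ∧
      (0 ≤ x → Summable (fun j => (2 * (K j : ℝ) + 1) ^ 2 * (x / 4 ^ j) ^ (2 * K j + 1))) ∧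
      (0 ≤ x → 0 ≤ lp (P K) x) := by
  have hp : NP (pP K) := (u_np K).2
  have hp1 : NP (DP (pP K)) := n_deriv hp
  have hp2 : NP (DP (DP (pP K))) := n_deriv hp1
  have hd1 : deriv (P K) = TS (DP (pP K)) := by
    funext y
    exact (n_hasDeriv hp y).deriv
  have hd2 : deriv (deriv (P K)) = TS (DP (DP (pP K))) := by
    rw [hd1]
    funext y
    exact (n_hasDeriv hp1 y).deriv
  have hlp : lp (P K) x = TS (DP (pP K)) x + x * TS (DP (DP (pP K))) x := by
    unfold lp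
    rw [hd2, hd1]
  have s1 : Summable (fun j => x * (DP (pP K) j).eval x) := (p_d_aux_sum hp1 x).mul_left x
  have s2 : Summable (fun j => x ^ 2 * (DP (DP (pP K)) j).eval x) :=
    (p_d_aux_sum hp2 x).mul_left (x ^ 2)
  have hfun : (fun j => x * (DP (pP K) j).eval x + x ^ 2 * (DP (DP (pP K)) j).eval x) =
      fun j => (2 * (K j : ℝ) + 1) ^ 2 * (x / 4 ^ j) ^ (2 * K j + 1) := by
    funext j
    exact p_d_aux_term K x j
  refine ⟨?_, ?_, ?_⟩
  · rw [hlp, ← hfun, s1.tsum_add s2, tsum_mul_left, tsum_mul_left]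
    show x * (TS (DP (pP K)) x + x * TS (DP (DP (pP K))) x) =
      x * TS (DP (pP K)) x + x ^ 2 * TS (DP (DP (pP K))) x
    ring
  · intro _
    rw [← hfun]
    exact s1.add s2
  · intro hx
    rw [hlp]
    exact add_nonneg (n_mono hp1 hx le_rfl).1 (mul_nonneg hx (n_mono hp2 hx le_rfl).1)

end Pool.Agent.Helper662.Rz
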