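import Pool.Agent.Helper662.Rz.Defs

set_option autoImplicit false
set_option linter.unusedVariables false

namespace Pool.Agent.Helper662.Rz
open Set Filter Topology ComplexConjugate Finset


theorem t1_small {y : ℝ} (hy : 0 ≤ y) (hy1 : y ≤ 1) (N : ℕ) :
    (∑ k ∈ range N, y ^ (k + 1)) ≤ N * y ∧
    (∑ k ∈ range N, y ^ (k + 1)) ^ 2 ≤ 2 * y * ∑ k ∈ range N, ((k : ℝ) + 1) * y ^ (k + 1) := by
  induction N with
  | zero => simp
  | succ N ih =>
    obtain ⟨h1, h2⟩ := ih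
    rw [Finset.sum_range_succ, Finset.sum_range_succ]
    have hp : 0 ≤ y ^ (N + 1) := by positivity
    constructor
    · have : y ^ (N + 1) ≤ y := by
        calc y ^ (N + 1) = y ^ N * y := pow_succ y N
          _ ≤ 1 * y := mul_le_mul_of_nonneg_right (pow_le_one₀ hy hy1) hy
          _ = y := one_mul y
      push_cast
      linarith
    · have h3 : y ^ (2 * N + 2) ≤ y ^ (N + 2) := pow_le_pow_of_le_one hy hy1 (by omega)
      have h4 : (∑ k ∈ range N, y ^ (k + 1)) * y ^ (N + 1) ≤ (N * y) * y ^ (N + 1) :=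
        mul_le_mul_of_nonneg_right h1 hp
      have e1 : y ^ (N + 2) = y * y ^ (N + 1) := by ring
      have e2 : y ^ (2 * N + 2) = y ^ (N + 1) * y ^ (N + 1) := by ring
      have h5 : 0 ≤ y ^ (N + 2) := by positivity
      rw [e1, e2] at h3
      rw [e1] at h5
      nlinarith

theorem t1_large {y : ℝ} (hy1 : 1 ≤ y) (N : ℕ) :
    (∑ k ∈ range N, y ^ (k + 1)) ≤ N * y ^ N := by
  have h : ∀ k ∈ range N, y ^ (k + 1) ≤ y ^ N := fun k hk => by
    rw [Finset.mem_range] at hk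
    exact pow_le_pow_right₀ hy1 (by omega)
  have := Finset.sum_le_sum h
  simpa using this

theorem t1 {N : ℕ} (hN : 1 ≤ N) {y : ℝ} (hy : 0 ≤ y) :
    (1 + y) ^ 2 * (∑ k ∈ range N, y ^ (k + 1)) ^ 2 ≤
      4 * y * (2 * ∑ k ∈ range N, ((k : ℝ) + 1) * y ^ (k + 1)
        + (2 * (N : ℝ) + 1) ^ 2 * y ^ (2 * N + 1)) := by
  have hD : 0 ≤ ∑ k ∈ range N, ((k : ℝ) + 1) * y ^ (k + 1) :=
    Finset.sum_nonneg fun k _ => by positivity
  have hS : 0 ≤ ∑ k ∈ range N, y ^ (k + 1) := Finset.sum_nonneg fun k _ => by positivity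
  set D := ∑ k ∈ range N, ((k : ℝ) + 1) * y ^ (k + 1) with hDd
  set T := ∑ k ∈ range N, y ^ (k + 1) with hTd
  rcases le_total y 1 with h | h
  · have h1 := (t1_small hy h N).2
    rw [← hDd, ← hTd] at h1
    have h2 : (1 + y) ^ 2 ≤ 4 := by nlinarith
    have h3 : 0 ≤ (2 * (N : ℝ) + 1) ^ 2 * y ^ (2 * N + 1) := by positivity
    calc (1 + y) ^ 2 * T ^ 2 ≤ 4 * (2 * y * D) :=
          mul_le_mul h2 h1 (by positivity) (by norm_num)
      _ = 4 * y * (2 * D) := by ring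
      _ ≤ _ := mul_le_mul_of_nonneg_left (by linarith) (by positivity)
  · have h1 := t1_large h N
    rw [← hTd] at h1
    have h2 : (1 + y) ^ 2 ≤ 4 * y ^ 2 := by nlinarith
    have h3 : T ^ 2 ≤ (N * y ^ N) ^ 2 := pow_le_pow_left₀ hS h1 2
    have hN0 : (0 : ℝ) ≤ N := by positivity
    calc (1 + y) ^ 2 * T ^ 2 ≤ 4 * y ^ 2 * (N * y ^ N) ^ 2 :=
          mul_le_mul h2 h3 (by positivity) (by positivity)
      _ = 4 * y * ((N : ℝ) ^ 2 * y ^ (2 * N + 1)) := by ring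
      _ ≤ 4 * y * (2 * D + (2 * (N : ℝ) + 1) ^ 2 * y ^ (2 * N + 1)) := by
          refine mul_le_mul_of_nonneg_left ?_ (by positivity)
          have h4 : (N : ℝ) ^ 2 * y ^ (2 * N + 1) ≤ (2 * (N : ℝ) + 1) ^ 2 * y ^ (2 * N + 1) :=
            mul_le_mul_of_nonneg_right (by nlinarith) (by positivity)
          linarith

end Pool.Agent.Helper662.Rz
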