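import Pool.Agent.Helper662.Rz.Defs
import Pool.Agent.Helper662.Rz.P_s_summ
import Pool.Agent.Helper662.Rz.P_u_d2
import Pool.Agent.Helper662.Rz.P_u_pos
import Pool.Agent.Helper662.Rz.P_t1
import Pool.Agent.Helper662.Rz.P_tele
import Pool.Agent.Helper662.Rz.P_p_d

set_option autoImplicit false
set_option linter.unusedVariables false

namespace Pool.Agent.Helper662.Rz
open Set Filter Topology ComplexConjugate Finset


theorem S_sq {K : ℕ → ℕ} (hK : ∀ j, 1 ≤ K j) {x : ℝ} (hx : 0 ≤ x) :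
    S K x ^ 2 ≤ 24 * (1 + x * lp (u K) x + x * lp (P K) x) := by
  have hy : ∀ j : ℕ, 0 ≤ x / 4 ^ j := fun j => by positivity
  obtain ⟨hss, hds⟩ := s_summ K hx
  obtain ⟨hP1, hP2, hP3⟩ := p_d K x
  have hpsum := hP2 hx
  have hds0 : ∀ j, 0 ≤ ds K j x := by
    intro j
    unfold ds
    exact Finset.sum_nonneg fun k _ => mul_nonneg (by positivity) (pow_nonneg (hy j) _)
  have hs0 : ∀ j, 0 ≤ s K j x := by
    intro j
    unfold s
    exact Finset.sum_nonneg fun k _ => pow_nonneg (hy j) _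
  obtain ⟨a, ha⟩ : ∃ a : ℕ → ℝ, a = fun j => 2 * ds K j x +
    (2 * (K j : ℝ) + 1) ^ 2 * (x / 4 ^ j) ^ (2 * K j + 1) := ⟨_, rfl⟩
  have ha0 : ∀ j, 0 ≤ a j := by
    intro j
    rw [ha]
    have h1 := hds0 j
    have h2 : 0 ≤ (2 * (K j : ℝ) + 1) ^ 2 * (x / 4 ^ j) ^ (2 * K j + 1) :=
      mul_nonneg (by positivity) (pow_nonneg (hy j) _)
    simp only
    linarith
  have hasum : Summable a := by
    rw [ha]
    exact (hds.mul_left 2).add hpsum
  obtain ⟨A, hA⟩ : ∃ A, A = ∑' j, a j := ⟨_, rfl⟩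
  have hAe : A = 2 * (x * lp (u K) x) + x * lp (P K) x := by
    rw [hA, ha, (hds.mul_left 2).tsum_add hpsum, tsum_mul_left, ← u_d2, ← hP1]
  have hA0 : 0 ≤ A := by rw [hA]; exact tsum_nonneg ha0
  have hU0 : 0 ≤ x * lp (u K) x := by rw [u_d2]; exact tsum_nonneg hds0
  have hV0 : 0 ≤ x * lp (P K) x := mul_nonneg hx (hP3 hx)
  obtain ⟨r, hr⟩ : ∃ r, r = Real.sqrt (1 + A) := ⟨_, rfl⟩
  have hr2 : r ^ 2 = 1 + A := by rw [hr]; exact Real.sq_sqrt (by linarith)
  have hr0 : 0 ≤ r := by rw [hr]; exact Real.sqrt_nonneg _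
  have hr1 : 1 ≤ r := by nlinarith
  have hrp : 0 < r := by linarith
  have hpt : ∀ j, s K j x ≤ r * ((x / 4 ^ j) / (1 + x / 4 ^ j) ^ 2) + a j / r := by
    intro j
    have h1 := t1 (hK j) (hy j)
    have h1' : (1 + x / 4 ^ j) ^ 2 * (s K j x) ^ 2 ≤ 4 * (x / 4 ^ j) * a j := by
      rw [ha]; exact h1
    have hyj := hy j
    have haj := ha0 j
    have hsj := hs0 j
    generalize x / 4 ^ j = y at *
    generalize a j = b at *
    generalize s K j x = t at *
    have hD : 0 < (1 + y) ^ 2 := by positivity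
    have h2 : t ^ 2 ≤ 4 * (y / (1 + y) ^ 2) * b := by
      have e : 4 * (y / (1 + y) ^ 2) * b = (4 * y * b) / (1 + y) ^ 2 := by ring
      rw [e, le_div_iff₀ hD]
      linarith
    have hw0 : 0 ≤ y / (1 + y) ^ 2 := by positivity
    generalize y / (1 + y) ^ 2 = w at *
    have h3 : t ^ 2 ≤ (r * w + b / r) ^ 2 := by
      refine h2.trans ?_
      have e : (r * w + b / r) ^ 2 = (r * w - b / r) ^ 2 + 4 * w * b := by
        field_simp
        ring
      rw [e]
      nlinarith [sq_nonneg (r * w - b / r)]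
    have h4 : 0 ≤ r * w + b / r := by positivity
    exact (pow_le_pow_iff_left₀ hsj h4 two_ne_zero).1 h3
  have hpart : ∀ J, ∑ j ∈ range J, s K j x ≤ 7 / 3 * r := by
    intro J
    calc ∑ j ∈ range J, s K j x
        ≤ ∑ j ∈ range J, (r * ((x / 4 ^ j) / (1 + x / 4 ^ j) ^ 2) + a j / r) :=
          Finset.sum_le_sum fun j _ => hpt j
      _ = r * (∑ j ∈ range J, (x / 4 ^ j) / (1 + x / 4 ^ j) ^ 2) + (∑ j ∈ range J, a j) / r := by
          rw [Finset.sum_add_distrib, Finset.mul_sum, Finset.sum_div]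
      _ ≤ r * (4 / 3) + A / r := by
          have h1 := tele hx J
          have h2 : ∑ j ∈ range J, a j ≤ A := by
            rw [hA]
            exact hasum.sum_le_tsum _ (fun j _ => ha0 j)
          gcongr
      _ ≤ 7 / 3 * r := by
          have h3 : A / r ≤ r := by
            rw [div_le_iff₀ hrp]
            nlinarith
          linarith
  have htsum : ∑' j, s K j x ≤ 7 / 3 * r := hss.tsum_le_of_sum_range_le hpart
  have hts0 : 0 ≤ ∑' j, s K j x := tsum_nonneg hs0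
  have hS : S K x ≤ 10 / 3 * r := by
    unfold S
    linarith
  have hS0 : 0 ≤ S K x := by
    unfold S
    linarith
  have hSq : S K x ^ 2 ≤ (10 / 3 * r) ^ 2 := pow_le_pow_left₀ hS0 hS 2
  have e : (10 / 3 * r) ^ 2 = 100 / 9 * (1 + A) := by
    rw [← hr2]; ring
  rw [e, hAe] at hSq
  linarith

end Pool.Agent.Helper662.Rz
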