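import Pool.Agent.Helper662.Rz.Defs
import Pool.Agent.Helper662.Rz.P_n_smooth
import Pool.Agent.Helper662.Rz.P_u_np
import Pool.Agent.Helper662.Rz.P_u_d1

set_option autoImplicit false
set_option linter.unusedVariables false

namespace Pool.Agent.Helper662.Rz
open Set Filter Topology ComplexConjugate Finset


theorem S_deriv (K : ℕ → ℕ) : ContDiff ℝ ((⊤ : ℕ∞) : WithTop ℕ∞) (u K) ∧
    ContDiff ℝ ((⊤ : ℕ∞) : WithTop ℕ∞) (P K) ∧ (∀ x, S K x = 1 + x * deriv (u K) x) ∧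
    (∀ x, HasDerivAt (S K) (lp (u K) x) x) := by
  have hu : ContDiff ℝ ((⊤ : ℕ∞) : WithTop ℕ∞) (u K) := n_smooth (u_np K).1
  have hP : ContDiff ℝ ((⊤ : ℕ∞) : WithTop ℕ∞) (P K) := n_smooth (u_np K).2
  have hS : ∀ x, S K x = 1 + x * deriv (u K) x := fun x => by
    rw [u_d1]
    rfl
  refine ⟨hu, hP, hS, fun x => ?_⟩
  have hd : ContDiff ℝ ((⊤ : ℕ∞) : WithTop ℕ∞) (deriv (u K)) :=
    (contDiff_infty_iff_deriv.1 hu).2
  have h1 : HasDerivAt (deriv (u K)) (deriv (deriv (u K)) x) x :=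
    ((hd.differentiable (by simp)) x).hasDerivAt
  have h2 : HasDerivAt (fun x => 1 + x * deriv (u K) x)
      (1 * deriv (u K) x + x * deriv (deriv (u K)) x) x :=
    ((hasDerivAt_id x).mul h1).const_add 1
  have h3 : S K = fun x => 1 + x * deriv (u K) x := funext hS
  rw [h3]
  refine h2.congr_deriv ?_
  unfold lp
  ring

end Pool.Agent.Helper662.Rz
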