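import Pool.Agent.Helper662.Rz.Defs

set_option autoImplicit false
set_option linter.unusedVariables false

namespace Pool.Agent.Helper662.Rz
open Set Filter Topology ComplexConjugate Finset


theorem w_unique {f : ℂ → ℂ} {z a b : ℂ} {L : ℂ →L[ℝ] ℂ} (h : HasFDerivAt f L z)
    (hL : ∀ v, L v = a * v + b * conj v) : dz f z = a ∧ dzb f z = b := by
  have h1 : L 1 = a + b := by
    rw [hL, map_one, mul_one, mul_one]
  have h2 : L Complex.I = a * Complex.I - b * Complex.I := by
    rw [hL, Complex.conj_I]
    ring
  have hI : Complex.I * Complex.I = -1 := Complex.I_mul_I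
  unfold dz dzb
  rw [h.fderiv, h1, h2]
  constructor
  · linear_combination (-(a - b) / 2) * hI
  · linear_combination ((a - b) / 2) * hI

end Pool.Agent.Helper662.Rz
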