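import Pool.Agent.Helper662.Rz.Defs
import Pool.Agent.Helper662.Rz.P_w_comp
import Pool.Agent.Helper662.Rz.P_S_deriv

set_option autoImplicit false
set_option linter.unusedVariables false

namespace Pool.Agent.Helper662.Rz
open Set Filter Topology ComplexConjugate Finset


theorem g_facts (K : ℕ → ℕ) {Λ : ℝ} (hΛ : 0 < Λ) (z : ℂ) :
    SmR (g0f Λ K) ∧
    dz (cR (g0f Λ K)) z = ((80 * deriv (u K) (‖z‖ ^ 2) * g0f Λ K z : ℝ) : ℂ) * conj z ∧
    th (g0f Λ K) z = g0f Λ K z * (80 * lp (u K) (‖z‖ ^ 2)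
      + 6400 * ‖z‖ ^ 2 * deriv (u K) (‖z‖ ^ 2) ^ 2) := by
  have hu : ContDiff ℝ ((⊤ : ℕ∞) : WithTop ℕ∞) (u K) := (S_deriv K).1
  have hF : ContDiff ℝ ((⊤ : ℕ∞) : WithTop ℕ∞) (fun x : ℝ => Λ * Real.exp (80 * u K x)) :=
    contDiff_const.mul (Real.contDiff_exp.comp (contDiff_const.mul hu))
  obtain ⟨h1, h2, h3⟩ := w_comp hF (v := fun x => x) differentiable_id z
  have hu1 : ∀ x, HasDerivAt (u K) (deriv (u K) x) x := fun x =>
    ((hu.differentiable (by simp)) x).hasDerivAt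
  have hdu : ContDiff ℝ ((⊤ : ℕ∞) : WithTop ℕ∞) (deriv (u K)) := by
    have := (contDiff_infty_iff_deriv (f := u K)).mp hu
    exact this.2
  have hu2 : ∀ x, HasDerivAt (deriv (u K)) (deriv (deriv (u K)) x) x := fun x =>
    ((hdu.differentiable (by simp)) x).hasDerivAt
  have hF1 : ∀ x, HasDerivAt (fun x : ℝ => Λ * Real.exp (80 * u K x))
      (80 * deriv (u K) x * (Λ * Real.exp (80 * u K x))) x := by
    intro x
    exact ((((hu1 x).const_mul 80).exp).const_mul Λ).congr_deriv (by ring)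
  have hdF : deriv (fun x : ℝ => Λ * Real.exp (80 * u K x)) =
      fun x => 80 * deriv (u K) x * (Λ * Real.exp (80 * u K x)) := by
    funext x; exact (hF1 x).deriv
  have hF2 : ∀ x, HasDerivAt (fun x : ℝ => 80 * deriv (u K) x * (Λ * Real.exp (80 * u K x)))
      (80 * deriv (deriv (u K)) x * (Λ * Real.exp (80 * u K x)) +
        80 * deriv (u K) x * (80 * deriv (u K) x * (Λ * Real.exp (80 * u K x)))) x := by
    intro x
    exact ((hu2 x).const_mul 80).mul (hF1 x)
  have hid : deriv (fun x : ℂ => x) z = 1 := (hasDerivAt_id z).deriv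
  refine ⟨h3, ?_, ?_⟩
  · have h4 : dz (cR (g0f Λ K)) z = _ := h1
    rw [h4, hid, mul_one, hdF]
    rfl
  · have h5 : th (g0f Λ K) z = _ := h2
    rw [h5, hid]
    unfold lp
    rw [hdF, (hF2 _).deriv]
    unfold g0f
    simp only [norm_one, one_pow, mul_one]
    ring

end Pool.Agent.Helper662.Rz
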