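import Pool.Agent.Helper662.Rz.Defs
import Pool.Agent.Helper662.Rz.P_g_facts

set_option autoImplicit false
set_option linter.unusedVariables false

namespace Pool.Agent.Helper662.Rz
open Set Filter Topology ComplexConjugate Finset


theorem g_kap (K : ℕ → ℕ) {Λ : ℝ} (hΛ : 0 < Λ) (z : ℂ) :
    ‖dz (cR (g0f Λ K)) z‖ ^ 2 = 6400 * ‖z‖ ^ 2 * deriv (u K) (‖z‖ ^ 2) ^ 2 * g0f Λ K z ^ 2 ∧
    th (g0f Λ K) z - ‖dz (cR (g0f Λ K)) z‖ ^ 2 / g0f Λ K z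
      = 80 * lp (u K) (‖z‖ ^ 2) * g0f Λ K z := by
  obtain ⟨-, h1, h2⟩ := g_facts K hΛ z
  have hg : 0 < g0f Λ K z := by unfold g0f; positivity
  have e : ‖dz (cR (g0f Λ K)) z‖ ^ 2 =
      6400 * ‖z‖ ^ 2 * deriv (u K) (‖z‖ ^ 2) ^ 2 * g0f Λ K z ^ 2 := by
    rw [h1, norm_mul, Complex.norm_conj, Complex.norm_real, mul_pow, Real.norm_eq_abs, sq_abs]
    ring
  refine ⟨e, ?_⟩
  rw [e, h2]
  field_simp
  ring

end Pool.Agent.Helper662.Rz
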