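import Pool.Agent.Helper662.Rz.Defs

set_option autoImplicit false
set_option linter.unusedVariables false

namespace Pool.Agent.Helper662.Rz
open Set Filter Topology ComplexConjugate Finset


theorem y_norm (K : ℕ → ℕ) (j : ℕ) (z : ℂ) :
    ‖yy K j z‖ ^ 2 = (‖z‖ ^ 2 / 4 ^ j) ^ (K j ^ 2) ∧ ‖yy K j z‖ = (‖z‖ / 2 ^ j) ^ (K j ^ 2) ∧
      Differentiable ℂ (yy K j) := by
  have h1 : ‖yy K j z‖ = (‖z‖ / 2 ^ j) ^ (K j ^ 2) := by
    unfold yy
    rw [norm_pow, norm_div, norm_pow, Complex.norm_ofNat]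
  refine ⟨?_, h1, ?_⟩
  · rw [h1, ← pow_mul, mul_comm, pow_mul, div_pow]
    congr 2
    rw [← pow_mul, mul_comm, pow_mul]
    norm_num
  · unfold yy
    fun_prop

end Pool.Agent.Helper662.Rz
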