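import Pool.Agent.Helper662.Rz.Defs
import Pool.Agent.Helper662.Rz.P_y_norm

set_option autoImplicit false
set_option linter.unusedVariables false

namespace Pool.Agent.Helper662.Rz
open Set Filter Topology ComplexConjugate Finset


theorem x_near {K : ℕ → ℕ} {j : ℕ} (hK : 2 ≤ K j) {z : ℂ} (hz : ‖z‖ < 2 ^ j * (7 / 10)) :
    ‖yy K j z‖ < 1 / 2 := by
  rw [(y_norm K j z).2.1]
  have h2 : (0:ℝ) < 2 ^ j := by positivity
  have h1 : ‖z‖ / 2 ^ j < 7 / 10 := by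
    rw [div_lt_iff₀ h2]
    linarith
  have h0 : 0 ≤ ‖z‖ / 2 ^ j := by positivity
  have h4 : 4 ≤ K j ^ 2 := by nlinarith
  calc (‖z‖ / 2 ^ j) ^ (K j ^ 2) ≤ (‖z‖ / 2 ^ j) ^ 4 :=
        pow_le_pow_of_le_one h0 (by linarith) h4
    _ ≤ (7 / 10) ^ 4 := pow_le_pow_left₀ h0 h1.le 4
    _ < 1 / 2 := by norm_num

end Pool.Agent.Helper662.Rz
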