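import Pool.Agent.Helper662.Rz.Defs
import Pool.Agent.Helper662.Rz.P_w_congr
import Pool.Agent.Helper662.Rz.P_y_norm

set_option autoImplicit false
set_option linter.unusedVariables false

namespace Pool.Agent.Helper662.Rz
open Set Filter Topology ComplexConjugate Finset


theorem x_supp_aux (Q : QD) {K : ℕ → ℕ} {j : ℕ} (hK : 2 ≤ K j) {z : ℂ}
    (hz : ‖yy K j z‖ < 1 / 2) : hh Q K j z = 0 := by
  unfold hh
  set y := yy K j z with hy
  have h0 : 0 ≤ ‖y‖ := norm_nonneg _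
  have h1 : ‖y‖ ^ 2 ≤ 1 / 4 := by nlinarith
  have h2 : 1 / 2 < ‖1 - y‖ := by
    have := norm_sub_norm_le (1 : ℂ) y
    rw [norm_one] at this
    linarith
  have h3 : ‖8 * (1 - y)‖ = 8 * ‖1 - y‖ := by
    rw [norm_mul]; norm_num
  have hKr : (2 : ℝ) ≤ (K j : ℝ) := by exact_mod_cast hK
  have h4 : ‖8 * (K j : ℂ) * (1 - y)‖ = (K j : ℝ) * ‖8 * (1 - y)‖ := by
    rw [norm_mul, norm_mul, h3]
    simp
    ring
  have h5 : (16 : ℝ) ≤ ‖8 * (1 - y)‖ ^ 2 := by rw [h3]; nlinarith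
  have h6 : (4 : ℝ) ≤ ‖8 * (K j : ℂ) * (1 - y)‖ ^ 2 := by
    rw [h4, mul_pow]; nlinarith [sq_nonneg ((K j : ℝ))]
  rw [Q.ql _ h1, Q.qr _ h6, Q.qr _ (by linarith : (4 : ℝ) ≤ ‖8 * (1 - y)‖ ^ 2), h4, mul_pow,
    Real.log_mul (by positivity) (by positivity), Real.log_pow]
  push_cast
  ring

theorem th_zero_aux : th (fun _ : ℂ => (0 : ℝ)) = fun _ => 0 := by
  have h1 : cR (fun _ : ℂ => (0 : ℝ)) = fun _ => (0 : ℂ) := by
    funext w; simp [cR]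
  have h2 : dz (fun _ : ℂ => (0 : ℂ)) = fun _ => (0 : ℂ) := by
    funext w; simp [dz]
  have h3 : dzb (fun _ : ℂ => (0 : ℂ)) = fun _ => (0 : ℂ) := by
    funext w; simp [dzb]
  funext w
  unfold th
  rw [h1, h2, h3]
  simp

theorem dz_zero_aux (z : ℂ) : dz (cR (fun _ : ℂ => (0 : ℝ))) z = 0 := by
  have h1 : cR (fun _ : ℂ => (0 : ℝ)) = fun _ => (0 : ℂ) := by
    funext w; simp [cR]
  rw [h1]; simp [dz]

theorem x_supp (Q : QD) {K : ℕ → ℕ} {j : ℕ} (hK : 2 ≤ K j) {z : ℂ} (hz : ‖yy K j z‖ < 1 / 2) :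
    hh Q K j z = 0 ∧ th (hh Q K j) z = 0 ∧ dz (cR (th (hh Q K j))) z = 0 ∧
      th (th (hh Q K j)) z = 0 := by
  have hopen : IsOpen {w : ℂ | ‖yy K j w‖ < 1 / 2} :=
    isOpen_lt (y_norm K j z).2.2.continuous.norm continuous_const
  have hev : hh Q K j =ᶠ[𝓝 z] fun _ => (0 : ℝ) := by
    filter_upwards [hopen.mem_nhds hz] with w hw
    exact x_supp_aux Q hK hw
  have hc := w_congr hev
  have hc2 := hc.2.2
  rw [th_zero_aux] at hc2
  have hd := w_congr hc2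
  refine ⟨x_supp_aux Q hK hz, ?_, ?_, ?_⟩
  · rw [hc.2.1, th_zero_aux]
  · rw [hd.1, dz_zero_aux]
  · rw [hd.2.1, th_zero_aux]

end Pool.Agent.Helper662.Rz
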