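import Pool.Agent.Helper662.Rz.Defs
import Pool.Agent.Helper662.Rz.P_x_supp
import Pool.Agent.Helper662.Rz.P_x_near

set_option autoImplicit false
set_option linter.unusedVariables false

namespace Pool.Agent.Helper662.Rz
open Set Filter Topology ComplexConjugate Finset


theorem x_loc (Q : QD) {K : ℕ → ℕ} (hK : ∀ j, 2 ≤ K j) {J : ℕ} {z : ℂ}
    (hz : ‖z‖ < 2 ^ J * (7 / 10)) :
    Xi Q K =ᶠ[𝓝 z] fun x => ∑ j ∈ range J, (1 / ((j : ℝ) + 1)) * hh Q K j x := by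
  have hopen : IsOpen {x : ℂ | ‖x‖ < 2 ^ J * (7 / 10)} := isOpen_lt continuous_norm continuous_const
  filter_upwards [hopen.mem_nhds hz] with x hx
  have hx' : ‖x‖ < 2 ^ J * (7 / 10) := hx
  unfold Xi
  refine tsum_eq_sum (fun j hj => ?_)
  rw [Finset.mem_range, not_lt] at hj
  have h1 : (2:ℝ) ^ J ≤ 2 ^ j := pow_le_pow_right₀ (by norm_num) hj
  have h2 : ‖x‖ < 2 ^ j * (7 / 10) := by linarith
  rw [(x_supp Q (hK j) (x_near (hK j) h2)).1, mul_zero]
end Pool.Agent.Helper662.Rz
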