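import Pool.Agent.Helper662.Rz.Defs
import Pool.Agent.Helper662.Rz.P_w_comp
import Pool.Agent.Helper662.Rz.P_y_norm

set_option autoImplicit false
set_option linter.unusedVariables false

namespace Pool.Agent.Helper662.Rz
open Set Filter Topology ComplexConjugate Finset


theorem x_smooth (Q : QD) (K : ℕ → ℕ) (j : ℕ) : SmR (hh Q K j) := by
  have hy : Differentiable ℂ (yy K j) := (y_norm K j 0).2.2
  have h1 : SmR (fun x => Q.q (‖yy K j x‖ ^ 2)) := (w_comp Q.hq hy 0).2.2
  have hv2 : Differentiable ℂ (fun z => 8 * (K j : ℂ) * (1 - yy K j z)) :=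
    ((differentiable_const _).sub hy).const_mul _
  have hv3 : Differentiable ℂ (fun z => 8 * (1 - yy K j z)) :=
    ((differentiable_const _).sub hy).const_mul _
  have h2 : SmR (fun x => Q.q (‖8 * (K j : ℂ) * (1 - yy K j x)‖ ^ 2)) := (w_comp Q.hq hv2 0).2.2
  have h3 : SmR (fun x => Q.q (‖8 * (1 - yy K j x)‖ ^ 2)) := (w_comp Q.hq hv3 0).2.2
  unfold SmR at h1 h2 h3 ⊢
  unfold hh
  exact (((contDiff_const.mul h1).add h2).sub h3).sub contDiff_const

end Pool.Agent.Helper662.Rz
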