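import Pool.Agent.Helper662.Rz.Defs
import Pool.Agent.Helper662.Rz.P_u_pos
import Pool.Agent.Helper662.Rz.P_S_le_exp
import Pool.Agent.Helper662.Rz.P_S_basic
import Pool.Agent.Helper662.Rz.P_S_deriv

set_option autoImplicit false
set_option linter.unusedVariables false

namespace Pool.Agent.Helper662.Rz
open Set Filter Topology ComplexConjugate Finset


theorem psi_alg {K : ℕ → ℕ} (hK : ∀ j, 2 ≤ K j) {Λ : ℝ} (hΛ : 1 ≤ Λ) (z : ℂ) :
    ‖z‖ ≤ psif Λ K z ∧ 0 < psif Λ K z ∧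
    (1 + ‖z‖ ^ 2) * g0f Λ K z = psif Λ K z ^ 2 * S K (‖z‖ ^ 2) ^ 2 ∧
    Differentiable ℝ (psif Λ K) := by
  have hK1 : ∀ j, 1 ≤ K j := fun j => le_trans (by norm_num) (hK j)
  have hx : ∀ z : ℂ, 0 ≤ ‖z‖ ^ 2 := fun z => by positivity
  have hS1 : ∀ z : ℂ, 1 ≤ S K (‖z‖ ^ 2) := fun z => (S_basic hK1 (hx z)).1
  have hS0 : ∀ z : ℂ, 0 < S K (‖z‖ ^ 2) := fun z => by linarith [hS1 z]
  have hu := (u_pos hK1 (hx z)).1
  have hSe := S_le_exp K (hx z)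
  have hs1 : 0 < Real.sqrt (1 + ‖z‖ ^ 2) := Real.sqrt_pos.2 (by linarith [hx z])
  have hΛ1 : 1 ≤ Real.sqrt Λ := Real.one_le_sqrt.2 hΛ
  have hpos : 0 < psif Λ K z := by
    unfold psif
    have := hS0 z
    positivity
  refine ⟨?_, hpos, ?_, ?_⟩
  · have h1 : ‖z‖ ≤ Real.sqrt (1 + ‖z‖ ^ 2) := by
      apply Real.le_sqrt_of_sq_le
      linarith
    have h2 : S K (‖z‖ ^ 2) ≤ Real.exp (40 * u K (‖z‖ ^ 2)) :=
      hSe.trans (Real.exp_le_exp.2 (by linarith))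
    have h3 : S K (‖z‖ ^ 2) ≤ Real.sqrt Λ * Real.exp (40 * u K (‖z‖ ^ 2)) :=
      h2.trans (le_mul_of_one_le_left (Real.exp_pos _).le hΛ1)
    unfold psif
    rw [le_div_iff₀ (hS0 z)]
    exact mul_le_mul h1 h3 (hS0 z).le hs1.le
  · have h1 : psif Λ K z * S K (‖z‖ ^ 2) =
        Real.sqrt (1 + ‖z‖ ^ 2) * (Real.sqrt Λ * Real.exp (40 * u K (‖z‖ ^ 2))) := by
      unfold psif
      exact div_mul_cancel₀ _ (hS0 z).ne'
    rw [← mul_pow, h1, mul_pow, mul_pow, Real.sq_sqrt (by linarith [hx z]),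
      Real.sq_sqrt (by linarith), ← Real.exp_nat_mul]
    unfold g0f
    congr 2
    push_cast
    congr 1
    ring
  · have hn : Differentiable ℝ (fun z : ℂ => ‖z‖ ^ 2) :=
      (contDiff_norm_sq ℝ (n := 1)).differentiable (by norm_num)
    have hud : Differentiable ℝ (u K) := (S_deriv K).1.differentiable (by simp)
    have hSd : Differentiable ℝ (S K) := fun x => ((S_deriv K).2.2.2 x).differentiableAt
    have h1 : Differentiable ℝ (fun z : ℂ => Real.sqrt (1 + ‖z‖ ^ 2)) :=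
      (hn.const_add 1).sqrt fun z => by linarith [hx z] |> fun h : 0 < 1 + ‖z‖ ^ 2 => h.ne'
    have h2 : Differentiable ℝ (fun z : ℂ => Real.sqrt Λ * Real.exp (40 * u K (‖z‖ ^ 2))) :=
      (((hud.comp hn).const_mul 40).exp).const_mul _
    have h3 : Differentiable ℝ (fun z : ℂ => S K (‖z‖ ^ 2)) := hSd.comp hn
    have h4 : Differentiable ℝ (fun z : ℂ => (S K (‖z‖ ^ 2))⁻¹) := h3.inv fun z => (hS0 z).ne'
    have h5 : psif Λ K = fun z : ℂ => Real.sqrt (1 + ‖z‖ ^ 2) *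
        (Real.sqrt Λ * Real.exp (40 * u K (‖z‖ ^ 2))) * (S K (‖z‖ ^ 2))⁻¹ := by
      funext z
      rw [psif, div_eq_mul_inv]
    rw [h5]
    exact (h1.mul h2).mul h4

end Pool.Agent.Helper662.Rz
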