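import Pool.Agent.Helper662.Rz.Defs
import Pool.Agent.Helper662.Rz.P_w_smooth
import Pool.Agent.Helper662.Rz.P_w_smR
import Pool.Agent.Helper662.Rz.P_w_add

set_option autoImplicit false
set_option linter.unusedVariables false

namespace Pool.Agent.Helper662.Rz
open Set Filter Topology ComplexConjugate Finset


theorem w_sum {φ : ℕ → ℂ → ℝ} (h : ∀ j, SmR (φ j)) (J : ℕ) (z : ℂ) :
    dz (cR (fun x => ∑ j ∈ range J, φ j x)) z = ∑ j ∈ range J, dz (cR (φ j)) z ∧
      th (fun x => ∑ j ∈ range J, φ j x) z = ∑ j ∈ range J, th (φ j) z := by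
  induction J with
  | zero =>
    have h0 : cR (fun _ : ℂ => (0 : ℝ)) = fun _ => (0 : ℂ) := by
      funext x
      simp [cR]
    have h1 : dz (cR (fun _ : ℂ => (0 : ℝ))) = fun _ => (0 : ℂ) := by
      funext x
      rw [h0]
      simp [dz]
    have h2 : th (fun _ : ℂ => (0 : ℝ)) z = 0 := by
      unfold th
      rw [h1]
      simp [dzb]
    constructor
    · simp only [Finset.range_zero, Finset.sum_empty]
      rw [h1]
    · simp only [Finset.range_zero, Finset.sum_empty]
      exact h2
  | succ J ih =>
    have hs : SmR (fun x => ∑ j ∈ range J, φ j x) := by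
      unfold SmR
      exact ContDiff.sum (fun j _ => h j)
    have e := w_add hs (h J) z
    have hfun : (fun x => ∑ j ∈ range (J + 1), φ j x) =
        fun x => (∑ j ∈ range J, φ j x) + φ J x := by
      funext x
      rw [Finset.sum_range_succ]
    rw [hfun, Finset.sum_range_succ, Finset.sum_range_succ, ← ih.1, ← ih.2]
    exact e

end Pool.Agent.Helper662.Rz
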