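import Pool.Agent.Helper662.Rz.Defs

set_option autoImplicit false
set_option linter.unusedVariables false

namespace Pool.Agent.Helper662.Rz
open Set Filter Topology ComplexConjugate Finset


theorem K_le {K : ℕ → ℕ} {j : ℕ} (hK : 1 ≤ K j) {x : ℝ} (hx : 0 ≤ x)
    (h : 1 / 4 ≤ (x / 4 ^ j) ^ (K j ^ 2)) : (K j : ℝ) ≤ 4 * s K j x := by
  have hy : 0 ≤ x / 4 ^ j := by positivity
  unfold s
  generalize x / 4 ^ j = y at h hy ⊢
  have hterm : ∀ k ∈ range (K j), (1 / 4 : ℝ) ≤ y ^ (k + 1) := by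
    intro k hk
    rw [Finset.mem_range] at hk
    rcases le_or_gt 1 y with h1 | h1
    · have := one_le_pow₀ h1 (n := k + 1)
      linarith
    · refine le_trans h (pow_le_pow_of_le_one hy h1.le ?_)
      nlinarith
  have hsum : ∑ _k ∈ range (K j), (1 / 4 : ℝ) ≤ ∑ k ∈ range (K j), y ^ (k + 1) :=
    Finset.sum_le_sum hterm
  rw [Finset.sum_const, Finset.card_range, nsmul_eq_mul] at hsum
  linarith

end Pool.Agent.Helper662.Rz
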