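import Pool.Agent.Helper662.Rz.Defs
import Pool.Agent.Helper662.Rz.P_w_unique
import Pool.Agent.Helper662.Rz.P_w_smooth
import Pool.Agent.Helper662.Rz.P_w_smR
import Pool.Agent.Helper662.Rz.P_w_comp

set_option autoImplicit false
set_option linter.unusedVariables false

namespace Pool.Agent.Helper662.Rz
open Set Filter Topology ComplexConjugate Finset


theorem w_bump_G {G : ℝ → ℝ} (hG : Differentiable ℝ G) {v a c : ℂ → ℂ}
    (hv : Differentiable ℂ v) (ha : Differentiable ℂ a) (hc : Differentiable ℂ c) (z : ℂ) :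
    ∃ L : ℂ →L[ℝ] ℂ, HasFDerivAt (fun x => ((G (‖v x‖ ^ 2) : ℝ) : ℂ) * a x * conj (c x)) L z ∧
      ∀ h : ℂ, L h =
        (((deriv G (‖v z‖ ^ 2) : ℝ) : ℂ) * deriv v z * conj (v z) * a z * conj (c z)
          + ((G (‖v z‖ ^ 2) : ℝ) : ℂ) * deriv a z * conj (c z)) * h
        + (((deriv G (‖v z‖ ^ 2) : ℝ) : ℂ) * v z * conj (deriv v z) * a z * conj (c z)
          + ((G (‖v z‖ ^ 2) : ℝ) : ℂ) * a z * conj (deriv c z)) * conj h := by
  have h1 : HasFDerivAt v (deriv v z • (1 : ℂ →L[ℝ] ℂ)) z :=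
    (hv z).hasDerivAt.complexToReal_fderiv
  have h2 : HasFDerivAt a (deriv a z • (1 : ℂ →L[ℝ] ℂ)) z :=
    (ha z).hasDerivAt.complexToReal_fderiv
  have h3 : HasFDerivAt c (deriv c z • (1 : ℂ →L[ℝ] ℂ)) z :=
    (hc z).hasDerivAt.complexToReal_fderiv
  have h4 : HasFDerivAt (fun x => conj (c x))
      ((Complex.conjCLE : ℂ →L[ℝ] ℂ).comp (deriv c z • (1 : ℂ →L[ℝ] ℂ))) z :=
    ((Complex.conjCLE : ℂ →L[ℝ] ℂ).hasFDerivAt).comp z h3
  have h5 := h1.norm_sq
  have h6 := (hG (‖v z‖ ^ 2)).hasDerivAt.comp_hasFDerivAt z h5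
  have h7 := (Complex.ofRealCLM.hasFDerivAt).comp z h6
  have h8 := (h7.mul h2).mul h4
  refine ⟨_, h8, ?_⟩
  intro h
  have h9 : ((2 * ((deriv v z * h) * conj (v z)).re : ℝ) : ℂ) =
      deriv v z * conj (v z) * h + v z * conj (deriv v z) * conj h := by
    rw [← Complex.add_conj]
    simp only [map_mul, Complex.conj_conj]
    ring
  simp [Complex.inner] at h9 ⊢
  linear_combination (conj (c z) * a z * ((deriv G (‖v z‖ ^ 2) : ℝ) : ℂ)) * h9

theorem w_bump_zero {b : ℝ → ℝ} (hc : Continuous (deriv b)) (h4 : ∀ x, 4 ≤ x → b x = 0) :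
    ∀ x, 4 ≤ x → deriv b x = 0 := by
  have hcl : IsClosed {x : ℝ | deriv b x = 0} := isClosed_eq hc continuous_const
  have hsub : Ioi (4 : ℝ) ⊆ {x : ℝ | deriv b x = 0} := by
    intro x hx
    have : b =ᶠ[𝓝 x] fun _ => (0 : ℝ) := by
      filter_upwards [Ioi_mem_nhds hx] with y hy
      exact h4 y hy.le
    simp only [mem_setOf_eq]
    rw [this.deriv_eq]
    simp
  have h := closure_minimal hsub hcl
  rw [closure_Ioi] at h
  intro x hx
  exact h hx

theorem w_bump {b : ℝ → ℝ} (hb : ContDiff ℝ ((⊤ : ℕ∞) : WithTop ℕ∞) b) {v : ℂ → ℂ}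
    (hv : Differentiable ℂ v) (z : ℂ) {C A : ℝ} (hA : 0 ≤ A)
    (h0 : ∀ x, |b x| ≤ C) (h1 : ∀ x, |deriv b x| ≤ C) (h2 : ∀ x, |deriv (deriv b) x| ≤ C)
    (h4 : ∀ x, 4 ≤ x → b x = 0)
    (hv1 : ‖deriv v z‖ ≤ A) (hv2 : ‖deriv (deriv v) z‖ ≤ A ^ 2) :
    ‖dz (cR (fun x => b (‖v x‖ ^ 2) * ‖deriv v x‖ ^ 2)) z‖ ≤ 3 * C * A ^ 3 ∧
      |th (fun x => b (‖v x‖ ^ 2) * ‖deriv v x‖ ^ 2) z| ≤ 10 * C * A ^ 4 ∧
      SmR (fun x => b (‖v x‖ ^ 2) * ‖deriv v x‖ ^ 2) := by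
  have hb1 : ContDiff ℝ ((⊤ : ℕ∞) : WithTop ℕ∞) (deriv b) := (contDiff_infty_iff_deriv.1 hb).2
  have hb2 : ContDiff ℝ ((⊤ : ℕ∞) : WithTop ℕ∞) (deriv (deriv b)) :=
    (contDiff_infty_iff_deriv.1 hb1).2
  have hbd : Differentiable ℝ b := (contDiff_infty_iff_deriv.1 hb).1
  have hb1d : Differentiable ℝ (deriv b) := (contDiff_infty_iff_deriv.1 hb1).1
  have hv' : Differentiable ℂ (deriv v) := by
    have h : ContDiff ℂ ((⊤ : ℕ∞) : WithTop ℕ∞) v := hv.contDiff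
    exact (contDiff_infty_iff_deriv.1 (contDiff_infty_iff_deriv.1 h).2).1
  have hv'' : Differentiable ℂ (deriv (deriv v)) := by
    have h : ContDiff ℂ ((⊤ : ℕ∞) : WithTop ℕ∞) (deriv v) := hv'.contDiff
    exact (contDiff_infty_iff_deriv.1 (contDiff_infty_iff_deriv.1 h).2).1
  have hC : 0 ≤ C := le_trans (abs_nonneg _) (h0 0)
  have h5 := w_bump_zero hb1.continuous h4
  have h6 := w_bump_zero hb2.continuous h5
  have e1 : cR (fun x => b (‖v x‖ ^ 2) * ‖deriv v x‖ ^ 2) =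
      fun x => ((b (‖v x‖ ^ 2) : ℝ) : ℂ) * deriv v x * conj (deriv v x) := by
    funext x
    simp only [cR]
    rw [mul_assoc, Complex.mul_conj']
    push_cast
    ring
  have e2 : dz (cR (fun x => b (‖v x‖ ^ 2) * ‖deriv v x‖ ^ 2)) =
      fun x => ((deriv b (‖v x‖ ^ 2) : ℝ) : ℂ) * (deriv v x * deriv v x) * conj (v x * deriv v x)
        + ((b (‖v x‖ ^ 2) : ℝ) : ℂ) * deriv (deriv v) x * conj (deriv v x) := by
    funext x
    rw [e1]
    obtain ⟨L, hL, hL2⟩ := w_bump_G hbd hv hv' hv' x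
    rw [(w_unique hL hL2).1]
    simp only [map_mul]
    ring
  have hvv : Differentiable ℂ (fun x => deriv v x * deriv v x) := hv'.mul hv'
  have hvc : Differentiable ℂ (fun x => v x * deriv v x) := hv.mul hv'
  have dvc : deriv (fun x => v x * deriv v x) z =
      deriv v z * deriv v z + v z * deriv (deriv v) z :=
    ((hv z).hasDerivAt.mul (hv' z).hasDerivAt).deriv
  have e3 : dzb (dz (cR (fun x => b (‖v x‖ ^ 2) * ‖deriv v x‖ ^ 2))) z =
      ((deriv (deriv b) (‖v z‖ ^ 2) : ℝ) : ℂ) * v z * conj (deriv v z) * (deriv v z * deriv v z)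
          * conj (v z * deriv v z)
        + ((deriv b (‖v z‖ ^ 2) : ℝ) : ℂ) * (deriv v z * deriv v z)
          * conj (deriv v z * deriv v z + v z * deriv (deriv v) z)
        + (((deriv b (‖v z‖ ^ 2) : ℝ) : ℂ) * v z * conj (deriv v z) * deriv (deriv v) z
          * conj (deriv v z)
        + ((b (‖v z‖ ^ 2) : ℝ) : ℂ) * deriv (deriv v) z * conj (deriv (deriv v) z)) := by
    rw [e2]
    obtain ⟨L1, hL1, hL1'⟩ := w_bump_G hb1d hv hvv hvc z
    obtain ⟨L2, hL2, hL2'⟩ := w_bump_G hbd hv hv'' hv' z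
    have hs := hL1.add hL2
    have hs' : ∀ h : ℂ, (L1 + L2) h =
        ((((deriv (deriv b) (‖v z‖ ^ 2) : ℝ) : ℂ) * deriv v z * conj (v z) *
            (deriv v z * deriv v z) * conj (v z * deriv v z)
          + ((deriv b (‖v z‖ ^ 2) : ℝ) : ℂ) * deriv (fun x => deriv v x * deriv v x) z
            * conj (v z * deriv v z))
          + (((deriv b (‖v z‖ ^ 2) : ℝ) : ℂ) * deriv v z * conj (v z) * deriv (deriv v) z
              * conj (deriv v z)
          + ((b (‖v z‖ ^ 2) : ℝ) : ℂ) * deriv (deriv (deriv v)) z * conj (deriv v z))) * h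
        + (((deriv (deriv b) (‖v z‖ ^ 2) : ℝ) : ℂ) * v z * conj (deriv v z) *
            (deriv v z * deriv v z) * conj (v z * deriv v z)
        + ((deriv b (‖v z‖ ^ 2) : ℝ) : ℂ) * (deriv v z * deriv v z)
          * conj (deriv v z * deriv v z + v z * deriv (deriv v) z)
        + (((deriv b (‖v z‖ ^ 2) : ℝ) : ℂ) * v z * conj (deriv v z) * deriv (deriv v) z
          * conj (deriv v z)
        + ((b (‖v z‖ ^ 2) : ℝ) : ℂ) * deriv (deriv v) z * conj (deriv (deriv v) z))) * conj h := by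
      intro h
      rw [ContinuousLinearMap.add_apply, hL1' h, hL2' h, dvc]
      ring
    exact (w_unique hs hs').2
  -- norms
  set X : ℝ := ‖v z‖ with hX
  set Y : ℝ := ‖deriv v z‖ with hY
  set W : ℝ := ‖deriv (deriv v) z‖ with hW
  have hX0 : 0 ≤ X := norm_nonneg _
  have hY0 : 0 ≤ Y := norm_nonneg _
  have hW0 : 0 ≤ W := norm_nonneg _
  have B1 : |deriv b (X ^ 2)| * X ≤ 2 * C := by
    rcases lt_or_ge X 2 with h | h
    · calc |deriv b (X ^ 2)| * X ≤ C * 2 := by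
            gcongr
            exact h1 _
        _ = 2 * C := by ring
    · have : (4 : ℝ) ≤ X ^ 2 := by nlinarith
      rw [h5 _ this]
      simp [hC]
  have B2 : |deriv (deriv b) (X ^ 2)| * X ^ 2 ≤ 4 * C := by
    rcases lt_or_ge X 2 with h | h
    · have hx : X ^ 2 ≤ 4 := by nlinarith
      calc |deriv (deriv b) (X ^ 2)| * X ^ 2 ≤ C * 4 := by
            gcongr
            exact h2 _
        _ = 4 * C := by ring
    · have : (4 : ℝ) ≤ X ^ 2 := by nlinarith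
      rw [h6 _ this]
      simp [hC]
  have hY2 : Y ^ 2 ≤ A ^ 2 := by gcongr
  have hY3 : Y ^ 3 ≤ A ^ 3 := by gcongr
  have hY4 : Y ^ 4 ≤ A ^ 4 := by gcongr
  have hWY : W * Y ≤ A ^ 3 := by
    calc W * Y ≤ A ^ 2 * A := by gcongr
      _ = A ^ 3 := by ring
  have hWY2 : W * Y ^ 2 ≤ A ^ 4 := by
    calc W * Y ^ 2 ≤ A ^ 2 * A ^ 2 := by gcongr
      _ = A ^ 4 := by ring
  have hWW : W * W ≤ A ^ 4 := by
    calc W * W ≤ A ^ 2 * A ^ 2 := by gcongr
      _ = A ^ 4 := by ring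
  refine ⟨?_, ?_, ?_⟩
  · rw [e2]
    refine (norm_add_le _ _).trans ?_
    simp only [norm_mul, Complex.norm_real, Real.norm_eq_abs, RCLike.norm_conj]
    have t1 : |deriv b (X ^ 2)| * (Y * Y) * (X * Y) ≤ 2 * C * A ^ 3 := by
      calc |deriv b (X ^ 2)| * (Y * Y) * (X * Y) = (|deriv b (X ^ 2)| * X) * Y ^ 3 := by ring
        _ ≤ (2 * C) * A ^ 3 := by gcongr
    have t2 : |b (X ^ 2)| * W * Y ≤ C * A ^ 3 := by
      calc |b (X ^ 2)| * W * Y = |b (X ^ 2)| * (W * Y) := by ring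
        _ ≤ C * A ^ 3 := by
            gcongr
            exact h0 _
    linarith
  · have hth : th (fun x => b (‖v x‖ ^ 2) * ‖deriv v x‖ ^ 2) z =
        (dzb (dz (cR (fun x => b (‖v x‖ ^ 2) * ‖deriv v x‖ ^ 2))) z).re := rfl
    rw [hth, e3]
    refine (Complex.abs_re_le_norm _).trans ?_
    refine (norm_add_le _ _).trans ?_
    refine (add_le_add (norm_add_le _ _) (norm_add_le _ _)).trans ?_
    have t0 : ‖deriv v z * deriv v z + v z * deriv (deriv v) z‖ ≤ Y ^ 2 + X * W := by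
      refine (norm_add_le _ _).trans ?_
      rw [norm_mul, norm_mul]
      apply le_of_eq
      ring
    simp only [norm_mul, Complex.norm_real, Real.norm_eq_abs, RCLike.norm_conj]
    have t1 : |deriv (deriv b) (X ^ 2)| * X * Y * (Y * Y) * (X * Y) ≤ 4 * C * A ^ 4 := by
      calc |deriv (deriv b) (X ^ 2)| * X * Y * (Y * Y) * (X * Y)
          = (|deriv (deriv b) (X ^ 2)| * X ^ 2) * Y ^ 4 := by ring
        _ ≤ (4 * C) * A ^ 4 := by gcongr
    have t2 : |deriv b (X ^ 2)| * (Y * Y) * ‖deriv v z * deriv v z + v z * deriv (deriv v) z‖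
        ≤ 3 * C * A ^ 4 := by
      calc |deriv b (X ^ 2)| * (Y * Y) * ‖deriv v z * deriv v z + v z * deriv (deriv v) z‖
          ≤ |deriv b (X ^ 2)| * (Y * Y) * (Y ^ 2 + X * W) := by gcongr
        _ = |deriv b (X ^ 2)| * Y ^ 4 + (|deriv b (X ^ 2)| * X) * (W * Y ^ 2) := by ring
        _ ≤ C * A ^ 4 + (2 * C) * A ^ 4 := by
            gcongr
            exact h1 _
        _ = 3 * C * A ^ 4 := by ring
    have t3 : |deriv b (X ^ 2)| * X * Y * W * Y ≤ 2 * C * A ^ 4 := by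
      calc |deriv b (X ^ 2)| * X * Y * W * Y = (|deriv b (X ^ 2)| * X) * (W * Y ^ 2) := by ring
        _ ≤ (2 * C) * A ^ 4 := by gcongr
    have t4 : |b (X ^ 2)| * W * W ≤ C * A ^ 4 := by
      calc |b (X ^ 2)| * W * W = |b (X ^ 2)| * (W * W) := by ring
        _ ≤ C * A ^ 4 := by
            gcongr
            exact h0 _
    linarith
  · have s1 : SmR (fun x => b (‖v x‖ ^ 2)) := (w_comp hb hv z).2.2
    have s2 : SmR (fun x => (fun y : ℝ => y) (‖deriv v x‖ ^ 2)) :=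
      (w_comp (F := fun y : ℝ => y) contDiff_id hv' z).2.2
    exact ContDiff.mul s1 s2

end Pool.Agent.Helper662.Rz
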