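import Pool.Agent.Helper662.Rz.Defs
import Pool.Agent.Helper662.Rz.P_K_le
import Pool.Agent.Helper662.Rz.P_y_norm
import Pool.Agent.Helper662.Rz.P_x_bound
import Pool.Agent.Helper662.Rz.P_x_supp

set_option autoImplicit false
set_option linter.unusedVariables false

namespace Pool.Agent.Helper662.Rz
open Set Filter Topology ComplexConjugate Finset


theorem x_bound2 (Q : QD) {K : ℕ → ℕ} {j : ℕ} (hK : 2 ≤ K j) (z : ℂ) :
    th (hh Q K j) z ≤ 2 ^ 54 * Q.Cb * s K j (‖z‖ ^ 2) ^ 12 ∧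
    ‖dz (cR (th (hh Q K j))) z‖ ≤ 2 ^ 54 * Q.Cb * s K j (‖z‖ ^ 2) ^ 12 ∧
    |th (th (hh Q K j)) z| ≤ 2 ^ 54 * Q.Cb * s K j (‖z‖ ^ 2) ^ 12 := by
  have hCb : (0 : ℝ) ≤ Q.Cb := le_trans zero_le_one Q.hCb
  have hs0 : 0 ≤ s K j (‖z‖ ^ 2) := by
    unfold s
    apply Finset.sum_nonneg
    intro k _
    positivity
  by_cases hy : ‖yy K j z‖ < 1 / 2
  · obtain ⟨_, h2, h3, h4⟩ := x_supp Q hK hy
    rw [h2, h3, h4]
    have hpos : 0 ≤ 2 ^ 54 * Q.Cb * s K j (‖z‖ ^ 2) ^ 12 := by positivity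
    refine ⟨hpos, ?_, ?_⟩
    · simpa using hpos
    · simpa using hpos
  · push Not at hy
    have hq : 1 / 4 ≤ (‖z‖ ^ 2 / 4 ^ j) ^ (K j ^ 2) := by
      rw [← (y_norm K j z).1]
      nlinarith [norm_nonneg (yy K j z)]
    have hK' := K_le (K := K) (j := j) (by omega) (x := ‖z‖ ^ 2) (by positivity) hq
    have hpow : (K j : ℝ) ^ 12 ≤ (4 * s K j (‖z‖ ^ 2)) ^ 12 :=
      pow_le_pow_left₀ (by positivity) hK' 12
    have hfin : 2 ^ 30 * Q.Cb * (K j : ℝ) ^ 12 ≤ 2 ^ 54 * Q.Cb * s K j (‖z‖ ^ 2) ^ 12 := by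
      calc 2 ^ 30 * Q.Cb * (K j : ℝ) ^ 12 ≤ 2 ^ 30 * Q.Cb * (4 * s K j (‖z‖ ^ 2)) ^ 12 := by
            apply mul_le_mul_of_nonneg_left hpow
            positivity
        _ = 2 ^ 54 * Q.Cb * s K j (‖z‖ ^ 2) ^ 12 := by ring
    obtain ⟨h1, h2, h3⟩ := x_bound Q hK z
    exact ⟨h1.trans hfin, h2.trans hfin, h3.trans hfin⟩

end Pool.Agent.Helper662.Rz
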