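import Pool.Agent.Helper662.Rz.Defs
import Pool.Agent.Helper662.Rz.P_y_norm
import Pool.Agent.Helper662.Rz.P_x_th

set_option autoImplicit false
set_option linter.unusedVariables false

namespace Pool.Agent.Helper662.Rz
open Set Filter Topology ComplexConjugate Finset


theorem x_nonneg (Q : QD) (K : ℕ → ℕ) (j : ℕ) (z : ℂ) : 0 ≤ th (hh Q K j) z := by
  rw [x_th]
  have hd := (y_norm K j z).2.2 z
  have e1 : deriv (fun x => 8 * (1 - yy K j x)) z = -(8 * deriv (yy K j) z) := by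
    have := ((hd.hasDerivAt.const_sub (1 : ℂ)).const_mul (8 : ℂ)).deriv
    rw [this]
    ring
  have e2 : deriv (fun x => 8 * (K j : ℂ) * (1 - yy K j x)) z
      = -(8 * (K j : ℂ) * deriv (yy K j) z) := by
    have := ((hd.hasDerivAt.const_sub (1 : ℂ)).const_mul (8 * (K j : ℂ))).deriv
    rw [this]
    ring
  have n1 : ‖deriv (fun x => 8 * (1 - yy K j x)) z‖ ^ 2 = 64 * ‖deriv (yy K j) z‖ ^ 2 := by
    rw [e1, norm_neg, norm_mul, mul_pow]
    norm_num
  rw [n1, e2]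
  have hY : 0 ≤ ‖deriv (yy K j) z‖ ^ 2 := by positivity
  have h2 : 0 ≤ Q.b (‖8 * (K j : ℂ) * (1 - yy K j z)‖ ^ 2)
      * ‖-(8 * (K j : ℂ) * deriv (yy K j) z)‖ ^ 2 := mul_nonneg (Q.b0 _) (by positivity)
  have hb : Q.b (‖8 * (1 - yy K j z)‖ ^ 2) ≤ Q.b (‖yy K j z‖ ^ 2) := by
    by_cases h : 4 ≤ ‖8 * (1 - yy K j z)‖ ^ 2
    · rw [Q.br _ h]; exact Q.b0 _
    · push Not at h
      have h8 : ‖8 * (1 - yy K j z)‖ = 8 * ‖1 - yy K j z‖ := by
        rw [norm_mul]; norm_num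
      rw [h8] at h
      have h0 : 0 ≤ ‖1 - yy K j z‖ := norm_nonneg _
      have h4 : ‖1 - yy K j z‖ < 1 / 4 := by nlinarith
      have h5 : 1 ≤ ‖yy K j z‖ + ‖1 - yy K j z‖ := by
        have := norm_add_le (yy K j z) (1 - yy K j z)
        rw [add_sub_cancel, norm_one] at this
        exact this
      have h6 : ‖yy K j z‖ ≤ 1 + ‖1 - yy K j z‖ := by
        have := norm_sub_le (1 : ℂ) (1 - yy K j z)
        rw [sub_sub_cancel, norm_one] at this
        exact this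
      rw [Q.bone (‖yy K j z‖ ^ 2) (by nlinarith) (by nlinarith [norm_nonneg (yy K j z)])]
      exact Q.b1 _
  nlinarith [mul_le_mul_of_nonneg_right hb hY]

end Pool.Agent.Helper662.Rz
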