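import Pool.Agent.Helper662.Rz.Defs
import Pool.Agent.Helper662.Rz.P_u_pos
import Pool.Agent.Helper662.Rz.P_p_d
import Pool.Agent.Helper662.Rz.P_S_sq
import Pool.Agent.Helper662.Rz.P_x_Xi_bounds
import Pool.Agent.Helper662.Rz.P_g_kap
import Pool.Agent.Helper662.Rz.P_phi_facts
import Pool.Agent.Helper662.Rz.P_psi_alg

set_option autoImplicit false
set_option linter.unusedVariables false

namespace Pool.Agent.Helper662.Rz
open Set Filter Topology ComplexConjugate Finset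


theorem g_base (Q : QD) {K : ℕ → ℕ} (hK : ∀ j, 2 ≤ K j) {Λ : ℝ} (hΛ : 1 ≤ Λ) (z : ℂ) :
    g0f Λ K z ^ 2 ≤ 24 * ((th (g0f Λ K) z - ‖dz (cR (g0f Λ K)) z‖ ^ 2 / g0f Λ K z)
      + th (phi Q K) z * g0f Λ K z) * (1 + psif Λ K z ^ 2) := by
  have hK1 : ∀ j, 1 ≤ K j := fun j => by have := hK j; omega
  have hx : 0 ≤ ‖z‖ ^ 2 := sq_nonneg _
  have hg : 0 < g0f Λ K z := by
    unfold g0f
    have : 0 < Λ := by linarith
    positivity
  obtain ⟨_, _, hu⟩ := u_pos hK1 hx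
  have hP := (p_d K (‖z‖ ^ 2)).2.2 hx
  have hS := S_sq hK1 hx
  have hXi := (x_Xi_bounds Q hK z).1
  have hkap := (g_kap K (by linarith : 0 < Λ) z).2
  have hphi := (phi_facts Q hK z).2.1
  have hpsi := (psi_alg hK hΛ z).2.2.1
  rw [hkap, hphi]
  set x := ‖z‖ ^ 2
  set g := g0f Λ K z
  set ψ := psif Λ K z
  set a := lp (u K) x
  set b := lp (P K) x
  set t := th (Xi Q K) z
  have hψ : 0 ≤ ψ ^ 2 := sq_nonneg _
  have h1 : (1 + x) * g ≤ (1 + x) * (24 * ψ ^ 2 * (80 * a + (1 + b + t))) := by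
    rw [hpsi]
    calc ψ ^ 2 * S K x ^ 2 ≤ ψ ^ 2 * (24 * (1 + x * a + x * b)) :=
          mul_le_mul_of_nonneg_left hS hψ
      _ ≤ ψ ^ 2 * (24 * ((1 + x) * (80 * a + (1 + b + t)))) := by
          apply mul_le_mul_of_nonneg_left _ hψ
          have e1 : 0 ≤ x * a := by positivity
          have e2 : 0 ≤ x * b := by positivity
          have e3 : 0 ≤ x * t := by positivity
          nlinarith
      _ = _ := by ring
  have h2 : g ≤ 24 * ψ ^ 2 * (80 * a + (1 + b + t)) := le_of_mul_le_mul_left h1 (by linarith)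
  have hB : 0 ≤ 80 * a + (1 + b + t) := by linarith
  have h3 : g ≤ 24 * (1 + ψ ^ 2) * (80 * a + (1 + b + t)) := by nlinarith
  calc g ^ 2 = g * g := sq g
    _ ≤ (24 * (1 + ψ ^ 2) * (80 * a + (1 + b + t))) * g := mul_le_mul_of_nonneg_right h3 hg.le
    _ = _ := by ring

end Pool.Agent.Helper662.Rz
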