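import Pool.Agent.Helper662.Rz.Defs
import Pool.Agent.Helper662.Rz.P_S_basic
import Pool.Agent.Helper662.Rz.P_t2

set_option autoImplicit false
set_option linter.unusedVariables false

namespace Pool.Agent.Helper662.Rz
open Set Filter Topology ComplexConjugate Finset


theorem P_sum {K : ℕ → ℕ} (hK : ∀ j, 1 ≤ K j) {X : ℝ} (hX : 1 ≤ X) :
    Summable (fun j => (2 * (K j : ℝ) + 1) ^ 4 * X ^ (2 * K j + 1) / 4 ^ (j * (2 * K j + 1))) ∧
    ∑' j, (2 * (K j : ℝ) + 1) ^ 4 * X ^ (2 * K j + 1) / 4 ^ (j * (2 * K j + 1))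
      ≤ 22 * S K X ^ 5 := by
  have hX0 : 0 ≤ X := by linarith
  obtain ⟨hS1, hSx, hSj, _⟩ := S_basic hK hX0
  have hS0 : 0 ≤ S K X := by linarith
  have hterm : ∀ j : ℕ, (2 * (K j : ℝ) + 1) ^ 4 * X ^ (2 * K j + 1) / 4 ^ (j * (2 * K j + 1))
      ≤ (16 * X * S K X ^ 4) * (1 / 4) ^ j := by
    intro j
    have hy : 0 ≤ X / 4 ^ j := by positivity
    have h1 := t2 (K j) hy
    have h2 : X ^ (2 * K j + 1) / 4 ^ (j * (2 * K j + 1)) = (X / 4 ^ j) ^ (2 * K j + 1) := by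
      rw [div_pow, pow_mul]
    have h3 : (1 + ∑ k ∈ range (K j), (X / 4 ^ j) ^ (k + 1)) ^ 4 ≤ S K X ^ 4 := by
      apply pow_le_pow_left₀
      · have : 0 ≤ ∑ k ∈ range (K j), (X / 4 ^ j) ^ (k + 1) :=
          Finset.sum_nonneg (fun k _ => pow_nonneg hy _)
        linarith
      · exact hSj j
    calc (2 * (K j : ℝ) + 1) ^ 4 * X ^ (2 * K j + 1) / 4 ^ (j * (2 * K j + 1))
        = (2 * (K j : ℝ) + 1) ^ 4 * (X / 4 ^ j) ^ (2 * K j + 1) := by rw [mul_div_assoc, h2]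
      _ ≤ 16 * (X / 4 ^ j) * (1 + ∑ k ∈ range (K j), (X / 4 ^ j) ^ (k + 1)) ^ 4 := h1
      _ ≤ 16 * (X / 4 ^ j) * S K X ^ 4 := mul_le_mul_of_nonneg_left h3 (by positivity)
      _ = (16 * X * S K X ^ 4) * (1 / 4) ^ j := by
        rw [one_div, inv_pow]; ring
  have hg : HasSum (fun j : ℕ => (16 * X * S K X ^ 4) * (1 / 4 : ℝ) ^ j)
      ((16 * X * S K X ^ 4) * (1 - 1 / 4)⁻¹) :=
    (hasSum_geometric_of_lt_one (by norm_num) (by norm_num)).mul_left _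
  have hsum : Summable (fun j =>
      (2 * (K j : ℝ) + 1) ^ 4 * X ^ (2 * K j + 1) / 4 ^ (j * (2 * K j + 1))) :=
    Summable.of_nonneg_of_le (fun j => by positivity) hterm hg.summable
  refine ⟨hsum, ?_⟩
  calc ∑' j, (2 * (K j : ℝ) + 1) ^ 4 * X ^ (2 * K j + 1) / 4 ^ (j * (2 * K j + 1))
      ≤ ∑' j : ℕ, (16 * X * S K X ^ 4) * (1 / 4 : ℝ) ^ j :=
        hsum.tsum_le_tsum hterm hg.summable
    _ = (16 * X * S K X ^ 4) * (1 - 1 / 4)⁻¹ := hg.tsum_eq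
    _ = (64 / 3) * (X * S K X ^ 4) := by norm_num; ring
    _ ≤ (64 / 3) * (S K X * S K X ^ 4) := by
        apply mul_le_mul_of_nonneg_left _ (by norm_num)
        exact mul_le_mul_of_nonneg_right hSx (by positivity)
    _ = (64 / 3) * S K X ^ 5 := by ring
    _ ≤ 22 * S K X ^ 5 := by
        apply mul_le_mul_of_nonneg_right (by norm_num) (by positivity)

end Pool.Agent.Helper662.Rz
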