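import Pool.Agent.Helper662.Rz.Defs
import Pool.Agent.Helper662.Rz.P_S_basic
import Pool.Agent.Helper662.Rz.P_p_d
import Pool.Agent.Helper662.Rz.P_P_bounds
import Pool.Agent.Helper662.Rz.P_x_Xi_bounds
import Pool.Agent.Helper662.Rz.P_phi_facts

set_option autoImplicit false
set_option linter.unusedVariables false

namespace Pool.Agent.Helper662.Rz
open Set Filter Topology ComplexConjugate Finset


theorem phi_bounds (Q : QD) {K : ℕ → ℕ} (hK : ∀ j, 2 ≤ K j) : ∃ C : ℝ, 1 ≤ C ∧ ∀ z : ℂ,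
    1 + lp (P K) (‖z‖ ^ 2) ≤ th (phi Q K) z ∧ 1 ≤ th (phi Q K) z ∧
    th (phi Q K) z ≤ C * S K (‖z‖ ^ 2) ^ 12 ∧
    ‖dz (cR (th (phi Q K))) z‖ ≤ C * S K (‖z‖ ^ 2) ^ 12 ∧
    |th (th (phi Q K)) z| ≤ C * S K (‖z‖ ^ 2) ^ 12 := by
  have hK1 : ∀ j, 1 ≤ K j := fun j => le_trans (by norm_num) (hK j)
  obtain ⟨CP, hCP, hP⟩ := P_bounds hK1
  have hCb := Q.hCb
  refine ⟨CP + 1 + 2 ^ 54 * Q.Cb, by nlinarith [hCP, hCb], fun z => ?_⟩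
  have hx : (0 : ℝ) ≤ ‖z‖ ^ 2 := by positivity
  obtain ⟨hS, -, -, -⟩ := S_basic hK1 hx
  obtain ⟨-, -, hlp⟩ := p_d K (‖z‖ ^ 2)
  have hlp0 := hlp hx
  obtain ⟨p1, p2, p3⟩ := hP ‖z‖ (norm_nonneg z)
  obtain ⟨x0, x1, x2, x3⟩ := x_Xi_bounds Q hK z
  obtain ⟨-, f1, f2, f3⟩ := phi_facts Q hK z
  have h5 : S K (‖z‖ ^ 2) ^ 5 ≤ S K (‖z‖ ^ 2) ^ 12 := pow_le_pow_right₀ hS (by norm_num)
  have h12 : 1 ≤ S K (‖z‖ ^ 2) ^ 12 := one_le_pow₀ hS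
  have h5' : CP * S K (‖z‖ ^ 2) ^ 5 ≤ CP * S K (‖z‖ ^ 2) ^ 12 :=
    mul_le_mul_of_nonneg_left h5 (by linarith)
  set W := S K (‖z‖ ^ 2) ^ 12 with hW
  have hsplit : (CP + 1 + 2 ^ 54 * Q.Cb) * W = CP * W + W + 2 ^ 54 * Q.Cb * W := by ring
  rw [hsplit]
  refine ⟨?_, ?_, ?_, ?_, ?_⟩
  · rw [f1]; linarith
  · rw [f1]; linarith
  · rw [f1]
    have := le_abs_self (lp (P K) (‖z‖ ^ 2))
    linarith
  · rw [f2]
    have h1 : ‖((deriv (lp (P K)) (‖z‖ ^ 2) : ℝ) : ℂ) * conj z‖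
        = ‖z‖ * |deriv (lp (P K)) (‖z‖ ^ 2)| := by
      rw [norm_mul, Complex.norm_real, Real.norm_eq_abs, RCLike.norm_conj, mul_comm]
    have h2 := norm_add_le (((deriv (lp (P K)) (‖z‖ ^ 2) : ℝ) : ℂ) * conj z)
      (dz (cR (th (Xi Q K))) z)
    rw [h1] at h2
    linarith
  · rw [f3]
    have h2 := abs_add_le (lp (lp (P K)) (‖z‖ ^ 2)) (th (th (Xi Q K)) z)
    linarith

end Pool.Agent.Helper662.Rz
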