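import Pool.Agent.Helper662.Rz.Defs
import Pool.Agent.Helper662.Rz.P_u_pos
import Pool.Agent.Helper662.Rz.P_S_le_exp
import Pool.Agent.Helper662.Rz.P_S_basic
import Pool.Agent.Helper662.Rz.P_S_growth
import Pool.Agent.Helper662.Rz.P_g_facts
import Pool.Agent.Helper662.Rz.P_g_kap
import Pool.Agent.Helper662.Rz.P_phi_facts
import Pool.Agent.Helper662.Rz.P_phi_bounds
import Pool.Agent.Helper662.Rz.P_psi_alg
import Pool.Agent.Helper662.Rz.P_psi_lip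
import Pool.Agent.Helper662.Rz.P_g_base

set_option autoImplicit false
set_option linter.unusedVariables false

namespace Pool.Agent.Helper662.Rz
open Set Filter Topology ComplexConjugate Finset


theorem base_good (Q : QD) {K : ℕ → ℕ} (hK : ∀ j, 2 ≤ K j) :
    ∃ (g0 ψ T V : ℂ → ℝ) (C : ℝ), BG (phi Q K) g0 ψ T V C := by
  have hK1 : ∀ j, 1 ≤ K j := fun j => le_trans (by norm_num) (hK j)
  obtain ⟨C1, hC1, hphi⟩ := phi_bounds Q hK
  obtain ⟨C2, hC2, hS⟩ := S_growth hK1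
  obtain ⟨C3, hC3, hpsi⟩ := psi_lip hK
  have hC1p : 0 < C1 := by linarith
  have hC2p : 0 < C2 := by linarith
  set Λ : ℝ := 200 * (C1 ^ 6 + 6400 * C2 ^ 2 * C1) + 1 with hΛdef
  have hΛ1 : 1 ≤ Λ := by
    have : 0 ≤ 200 * (C1 ^ 6 + 6400 * C2 ^ 2 * C1) := by positivity
    linarith
  have hΛ : 0 < Λ := by linarith
  have hg0 : ∀ z, 0 < g0f Λ K z := fun z => by
    unfold g0f
    positivity
  have hx : ∀ z : ℂ, 0 ≤ ‖z‖ ^ 2 := fun z => sq_nonneg _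
  have hS1 : ∀ z : ℂ, 1 ≤ S K (‖z‖ ^ 2) := fun z => (S_basic hK1 (hx z)).1
  have hfac : ∀ z : ℂ, 0 ≤ ((th (g0f Λ K) z - ‖dz (cR (g0f Λ K)) z‖ ^ 2 / g0f Λ K z)
      + th (phi Q K) z * g0f Λ K z) * (1 + psif Λ K z ^ 2) := by
    intro z
    have h1 := (g_kap K hΛ z).2
    have h2 := (u_pos hK1 (hx z)).2.2
    have h3 := (hphi z).2.1
    have h4 := hg0 z
    rw [h1]
    have h5 : 0 ≤ 80 * lp (u K) (‖z‖ ^ 2) * g0f Λ K z := by positivity
    have h6 : 0 ≤ th (phi Q K) z * g0f Λ K z := mul_nonneg (by linarith) h4.le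
    have h7 : 0 ≤ 1 + psif Λ K z ^ 2 := by positivity
    exact mul_nonneg (add_nonneg h5 h6) h7
  refine ⟨g0f Λ K, psif Λ K, fun z => C1 * S K (‖z‖ ^ 2) ^ 12,
    fun z => 6400 * ‖z‖ ^ 2 * deriv (u K) (‖z‖ ^ 2) ^ 2, max 24 C3, ?_⟩
  constructor
  · exact (phi_facts Q hK 0).1
  · exact (g_facts K hΛ 0).1
  · exact hg0
  · exact fun z => (hphi z).2.1
  · exact fun z => (hphi z).2.2.1
  · exact fun z => (hphi z).2.2.2.1
  · exact fun z => (hphi z).2.2.2.2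
  · intro z
    positivity
  · intro z
    exact ((g_kap K hΛ z).1).le
  · intro z
    have hs := hS1 z
    have hs0 : 0 < S K (‖z‖ ^ 2) := by linarith
    obtain ⟨hu0, hu1, hu2⟩ := u_pos hK1 (hx z)
    have hgr := (hS (‖z‖ ^ 2) (hx z)).1
    have hSe := S_le_exp K (hx z)
    set s := S K (‖z‖ ^ 2) with hsdef
    set u' := deriv (u K) (‖z‖ ^ 2) with hu'def
    have hV : 6400 * ‖z‖ ^ 2 * u' ^ 2 ≤ 6400 * C2 ^ 2 * s ^ 2 := by
      have h1 : 0 ≤ (1 + ‖z‖ ^ 2) * u' := mul_nonneg (by positivity) hu1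
      have h2 : ((1 + ‖z‖ ^ 2) * u') ^ 2 ≤ (C2 * s) ^ 2 := pow_le_pow_left₀ h1 hgr 2
      have h3 : ‖z‖ ^ 2 ≤ (1 + ‖z‖ ^ 2) ^ 2 := by nlinarith [hx z, sq_nonneg (‖z‖ ^ 2)]
      have h4 : ‖z‖ ^ 2 * u' ^ 2 ≤ (1 + ‖z‖ ^ 2) ^ 2 * u' ^ 2 :=
        mul_le_mul_of_nonneg_right h3 (sq_nonneg _)
      have h5 : (1 + ‖z‖ ^ 2) ^ 2 * u' ^ 2 ≤ C2 ^ 2 * s ^ 2 := by
        rw [← mul_pow, ← mul_pow]
        exact h2
      nlinarith
    have h80 : s ^ 80 ≤ Real.exp (80 * u K (‖z‖ ^ 2)) := by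
      have h1 := pow_le_pow_left₀ hs0.le hSe 80
      rw [← Real.exp_nat_mul] at h1
      exact_mod_cast h1
    have h72 : s ^ 72 ≤ s ^ 80 := pow_le_pow_right₀ hs (by norm_num)
    have h14 : s ^ 14 ≤ s ^ 80 := pow_le_pow_right₀ hs (by norm_num)
    have hT6 : (C1 * s ^ 12) ^ 6 ≤ C1 ^ 6 * s ^ 80 := by
      have h1 : (C1 * s ^ 12) ^ 6 = C1 ^ 6 * s ^ 72 := by ring
      rw [h1]
      exact mul_le_mul_of_nonneg_left h72 (by positivity)
    have hVT : 6400 * ‖z‖ ^ 2 * u' ^ 2 * (C1 * s ^ 12) ≤ 6400 * C2 ^ 2 * C1 * s ^ 80 := by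
      have h1 : 6400 * ‖z‖ ^ 2 * u' ^ 2 * (C1 * s ^ 12) ≤
          6400 * C2 ^ 2 * s ^ 2 * (C1 * s ^ 12) :=
        mul_le_mul_of_nonneg_right hV (by positivity)
      have h2 : 6400 * C2 ^ 2 * s ^ 2 * (C1 * s ^ 12) = 6400 * C2 ^ 2 * C1 * s ^ 14 := by ring
      rw [h2] at h1
      exact h1.trans (mul_le_mul_of_nonneg_left h14 (by positivity))
    have hfin : 200 * ((C1 * s ^ 12) ^ 6 + 6400 * ‖z‖ ^ 2 * u' ^ 2 * (C1 * s ^ 12)) ≤
        Λ * s ^ 80 := by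
      have h1 : 0 ≤ s ^ 80 := by positivity
      have h2 : Λ * s ^ 80 = 200 * (C1 ^ 6 * s ^ 80 + 6400 * C2 ^ 2 * C1 * s ^ 80) + s ^ 80 := by
        rw [hΛdef]
        ring
      rw [h2]
      linarith
    refine hfin.trans ?_
    unfold g0f
    exact mul_le_mul_of_nonneg_left h80 hΛ.le
  · intro z
    rw [(g_kap K hΛ z).2]
    have h2 := (u_pos hK1 (hx z)).2.2
    have h4 := hg0 z
    nlinarith [mul_le_mul_of_nonneg_right h2 h4.le]
  · exact le_trans (by norm_num) (le_max_left _ _)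
  · exact (psi_alg hK hΛ1 0).2.2.2
  · intro z v
    refine (hpsi Λ hΛ1 z v).trans ?_
    exact mul_le_mul_of_nonneg_right (le_max_right _ _)
      (mul_nonneg (Real.sqrt_nonneg _) (norm_nonneg _))
  · exact fun z => (psi_alg hK hΛ1 z).1
  · intro z
    refine (g_base Q hK hΛ1 z).trans ?_
    rw [mul_assoc, mul_assoc]
    exact mul_le_mul_of_nonneg_right (le_max_left _ _) (hfac z)

end Pool.Agent.Helper662.Rz
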