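import Pool.Agent.Helper662.Rz.Defs
import Pool.Agent.Helper662.Rz.P_u_np

set_option autoImplicit false
set_option linter.unusedVariables false

namespace Pool.Agent.Helper662.Rz
open Set Filter Topology ComplexConjugate Finset


theorem eval_pP (K : ℕ → ℕ) (j : ℕ) (x : ℝ) : (pP K j).eval x = (x / 4 ^ j) ^ (2 * K j + 1) := by
  unfold pP
  rw [Polynomial.eval_mul, Polynomial.eval_C, Polynomial.eval_pow, Polynomial.eval_X, div_pow, ← pow_mul]
  ring

theorem k_P {K : ℕ → ℕ} (hK : ∀ j, 4 ≤ K j) (hmono : Monotone K) (J : ℕ) {r : ℝ}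
    (h1 : 2 ^ (J + 1) ≤ r) (h2 : r ≤ 2 ^ (J + 1) * (6 / 5)) :
    r ^ 2 + P K (r ^ 2) ≤ ((J : ℝ) + 3) * 4 ^ ((J + 2) * (2 * K J + 2))
      + (r ^ 2 / 4 ^ (J + 1)) ^ (2 * K (J + 1) + 1) := by
  have hr0 : 0 ≤ r := le_trans (by positivity) h1
  set x : ℝ := r ^ 2 with hx
  have hx0 : 0 ≤ x := by positivity
  have hx1 : x ≤ 4 ^ (J + 1) * (36 / 25) := by
    calc x = r ^ 2 := rfl
      _ ≤ (2 ^ (J + 1) * (6 / 5)) ^ 2 := pow_le_pow_left₀ hr0 h2 2
      _ = 4 ^ (J + 1) * (36 / 25) := by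
          rw [mul_pow, ← pow_mul, mul_comm (J + 1) 2, pow_mul]; norm_num
  have hx2 : x ≤ 4 ^ (J + 2) := by
    have : (4:ℝ) ^ (J + 2) = 4 ^ (J + 1) * 4 := by rw [pow_succ]
    have h4 : (0:ℝ) < 4 ^ (J + 1) := by positivity
    rw [this]; nlinarith
  set X : ℝ := 4 ^ ((J + 2) * (2 * K J + 2)) with hX
  have hX1 : 1 ≤ X := one_le_pow₀ (by norm_num)
  have hxX : x ≤ X := by
    refine hx2.trans ?_
    apply pow_le_pow_right₀ (by norm_num)
    nlinarith [Nat.zero_le (K J), Nat.zero_le J, Nat.zero_le (J * K J)]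
  have hs : Summable (fun j => (pP K j).eval x) := (u_np K).2.2 x hx0
  have hsplit := hs.sum_add_tsum_nat_add (J + 2)
  have hP : P K x = ∑' j, (pP K j).eval x := rfl
  rw [hP, ← hsplit, Finset.sum_range_succ]
  have hA : ∑ i ∈ range (J + 1), (pP K i).eval x ≤ ((J:ℝ) + 1) * X := by
    have : ∀ i ∈ range (J + 1), (pP K i).eval x ≤ X := by
      intro i hi
      have hiJ : i ≤ J := Nat.lt_succ_iff.1 (Finset.mem_range.1 hi)
      rw [eval_pP]
      have b1 : x / 4 ^ i ≤ 4 ^ (J + 2) := by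
        refine le_trans ?_ hx2
        exact div_le_self hx0 (one_le_pow₀ (by norm_num))
      calc (x / 4 ^ i) ^ (2 * K i + 1) ≤ (4 ^ (J + 2)) ^ (2 * K i + 1) :=
            pow_le_pow_left₀ (by positivity) b1 _
        _ = 4 ^ ((J + 2) * (2 * K i + 1)) := by rw [← pow_mul]
        _ ≤ X := by
            apply pow_le_pow_right₀ (by norm_num)
            apply Nat.mul_le_mul_left
            have := hmono hiJ
            omega
    calc _ ≤ ∑ i ∈ range (J + 1), X := Finset.sum_le_sum this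
      _ = ((J:ℝ) + 1) * X := by simp
  have hB : (pP K (J + 1)).eval x = (x / 4 ^ (J + 1)) ^ (2 * K (J + 1) + 1) := eval_pP K (J + 1) x
  have hC : ∑' i, (pP K (i + (J + 2))).eval x ≤ 1 := by
    have hg : HasSum (fun i : ℕ => (9 / 25 : ℝ) * (1 / 4) ^ i) ((9 / 25 : ℝ) * (1 - 1 / 4)⁻¹) :=
      (hasSum_geometric_of_lt_one (by norm_num) (by norm_num)).mul_left _
    have hs2 : Summable (fun i => (pP K (i + (J + 2))).eval x) := (summable_nat_add_iff (f := fun j => (pP K j).eval x) (J + 2)).2 hs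
    have hle : ∀ i, (pP K (i + (J + 2))).eval x ≤ (9 / 25 : ℝ) * (1 / 4) ^ i := by
      intro i
      rw [eval_pP]
      have hb : x / 4 ^ (i + (J + 2)) ≤ (9 / 25 : ℝ) * (1 / 4) ^ i := by
        rw [div_le_iff₀ (by positivity)]
        have e : (9 / 25 : ℝ) * (1 / 4) ^ i * 4 ^ (i + (J + 2)) = 4 ^ (J + 1) * (36 / 25) := by
          rw [pow_add, one_div, inv_pow]
          have : (4:ℝ) ^ i ≠ 0 := by positivity
          field_simp
          ring
        rw [e]; exact hx1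
      have hb1 : x / 4 ^ (i + (J + 2)) ≤ 1 := by
        refine hb.trans ?_
        have : ((1:ℝ) / 4) ^ i ≤ 1 := pow_le_one₀ (by norm_num) (by norm_num)
        linarith
      have hb0 : 0 ≤ x / 4 ^ (i + (J + 2)) := by positivity
      calc (x / 4 ^ (i + (J + 2))) ^ (2 * K (i + (J + 2)) + 1)
          ≤ (x / 4 ^ (i + (J + 2))) ^ 1 := pow_le_pow_of_le_one hb0 hb1 (by omega)
        _ = x / 4 ^ (i + (J + 2)) := pow_one _
        _ ≤ _ := hb
    have := hs2.tsum_le_tsum hle hg.summable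
    rw [hg.tsum_eq] at this
    refine this.trans ?_
    norm_num
  rw [hB]
  linarith

end Pool.Agent.Helper662.Rz
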