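import Pool.Agent.Helper662.Rz.Defs
import Pool.Agent.Helper662.Rz.P_y_norm
import Pool.Agent.Helper662.Rz.P_x_far
import Pool.Agent.Helper662.Rz.P_x_loc

set_option autoImplicit false
set_option linter.unusedVariables false

namespace Pool.Agent.Helper662.Rz
open Set Filter Topology ComplexConjugate Finset


theorem k_Xi_pow (J k : ℕ) : ((k : ℝ) ^ 2 * ((J : ℝ) + 2)) ≤ 4 ^ ((J + 2) * (2 * k + 2)) := by
  have h1 : (k : ℝ) ≤ 4 ^ k := by
    have : k < 4 ^ k := Nat.lt_pow_self (by norm_num)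
    exact_mod_cast this.le
  have h2 : ((J : ℝ) + 2) ≤ 4 ^ (J + 2) := by
    have : J + 2 < 4 ^ (J + 2) := Nat.lt_pow_self (by norm_num)
    exact_mod_cast this.le
  have h3 : (k : ℝ) ^ 2 ≤ (4 ^ k) ^ 2 := by gcongr
  calc ((k : ℝ) ^ 2 * ((J : ℝ) + 2)) ≤ (4 ^ k) ^ 2 * 4 ^ (J + 2) := by gcongr
    _ = 4 ^ (k * 2 + (J + 2)) := by rw [← pow_mul, ← pow_add]
    _ ≤ 4 ^ ((J + 2) * (2 * k + 2)) := by
        apply pow_le_pow_right₀ (by norm_num)
        nlinarith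

theorem k_Xi (Q : QD) {K : ℕ → ℕ} (hK : ∀ j, 4 ≤ K j) (hmono : Monotone K) (J : ℕ) {z : ℂ}
    (h1 : 2 ^ (J + 1) ≤ ‖z‖) (h2 : ‖z‖ ≤ 2 ^ (J + 1) * (6 / 5)) :
    Xi Q K z ≤ 64 * (4 * Q.M + |Q.c0|) * (((J : ℝ) + 3) * 4 ^ ((J + 2) * (2 * K J + 2)))
      + (1 / ((J : ℝ) + 2)) * hh Q K (J + 1) z := by
  have hK2 : ∀ j, 2 ≤ K j := fun j => le_trans (by norm_num) (hK j)
  have hz : ‖z‖ < 2 ^ (J + 2) * (7 / 10) := by
    have : (2 : ℝ) ^ (J + 2) = 2 * 2 ^ (J + 1) := by ring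
    rw [this]
    have hp : (0 : ℝ) < 2 ^ (J + 1) := by positivity
    nlinarith
  have hz0 : 0 < ‖z‖ := lt_of_lt_of_le (by positivity) h1
  have hX := (x_loc Q hK2 hz).eq_of_nhds
  rw [hX, Finset.sum_range_succ]
  have e1 : ((J + 1 : ℕ) : ℝ) + 1 = (J : ℝ) + 2 := by push_cast; ring
  rw [e1]
  have hM := Q.hM
  set B : ℝ := 64 * (2 * Q.M * ((K J : ℝ) ^ 2 * ((J : ℝ) + 2)) + |Q.c0|) with hB
  have hB0 : 0 ≤ B := by positivity
  have hterm : ∀ j ∈ range (J + 1), (1 / ((j : ℝ) + 1)) * hh Q K j z ≤ B := by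
    intro j hj
    rw [Finset.mem_range] at hj
    have hjJ : j ≤ J := by omega
    obtain ⟨n1, n2, _⟩ := y_norm K j z
    have h2j : (0 : ℝ) < 2 ^ j := by positivity
    have hge2 : 2 ≤ ‖z‖ / 2 ^ j := by
      rw [le_div_iff₀ h2j]
      have : (2 : ℝ) * 2 ^ j ≤ 2 ^ (J + 1) := by
        rw [pow_succ' (2 : ℝ) J]
        have := pow_le_pow_right₀ (by norm_num : (1 : ℝ) ≤ 2) hjJ
        linarith
      linarith
    have hy2 : 2 ≤ ‖yy K j z‖ := by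
      rw [n2]
      have hk : K j ^ 2 ≠ 0 := by
        have := hK j
        positivity
      calc (2 : ℝ) ≤ ‖z‖ / 2 ^ j := hge2
        _ ≤ (‖z‖ / 2 ^ j) ^ (K j ^ 2) := le_self_pow₀ (by linarith) hk
    have hh1 := (x_far Q (hK2 j) (z := z)).2.1 hy2
    have hlog : Real.log (‖yy K j z‖ ^ 2) ≤ 2 * ((K J : ℝ) ^ 2 * ((J : ℝ) + 2)) := by
      rw [n1, Real.log_pow]
      have hx : ‖z‖ ^ 2 / 4 ^ j ≤ 4 ^ (J + 2) := by
        have g1 : ‖z‖ ^ 2 / 4 ^ j ≤ ‖z‖ ^ 2 :=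
          div_le_self (by positivity) (one_le_pow₀ (by norm_num))
        have g2 : ‖z‖ ^ 2 ≤ (2 ^ (J + 2)) ^ 2 := by
          have : ‖z‖ ≤ 2 ^ (J + 2) := by
            have hp : (0 : ℝ) < 2 ^ (J + 2) := by positivity
            linarith
          gcongr
        have g3 : ((2 : ℝ) ^ (J + 2)) ^ 2 = 4 ^ (J + 2) := by
          rw [← pow_mul, mul_comm, pow_mul]; norm_num
        linarith
      have hx0 : 0 < ‖z‖ ^ 2 / 4 ^ j := by positivity
      have hl1 : Real.log (‖z‖ ^ 2 / 4 ^ j) ≤ 2 * ((J : ℝ) + 2) := by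
        refine le_trans (Real.log_le_log hx0 hx) ?_
        rw [Real.log_pow]
        have l4 : Real.log 4 ≤ 2 := by
          have : (4 : ℝ) = 2 ^ 2 := by norm_num
          rw [this, Real.log_pow]
          have := Real.log_two_lt_d9
          push_cast
          linarith
        push_cast
        have hJ : (0 : ℝ) ≤ (J : ℝ) + 2 := by positivity
        nlinarith
      have hKj : ((K j ^ 2 : ℕ) : ℝ) ≤ (K J : ℝ) ^ 2 := by
        have : K j ≤ K J := hmono hjJ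
        have h' : K j ^ 2 ≤ K J ^ 2 := Nat.pow_le_pow_left this 2
        exact_mod_cast h'
      have hJ0 : (0 : ℝ) ≤ 2 * ((J : ℝ) + 2) := by positivity
      calc ((K j ^ 2 : ℕ) : ℝ) * Real.log (‖z‖ ^ 2 / 4 ^ j)
          ≤ ((K j ^ 2 : ℕ) : ℝ) * (2 * ((J : ℝ) + 2)) :=
            mul_le_mul_of_nonneg_left hl1 (Nat.cast_nonneg _)
        _ ≤ (K J : ℝ) ^ 2 * (2 * ((J : ℝ) + 2)) := mul_le_mul_of_nonneg_right hKj hJ0
        _ = 2 * ((K J : ℝ) ^ 2 * ((J : ℝ) + 2)) := by ring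
    have hhB : hh Q K j z ≤ B := by
      rw [hh1, hB]
      have := mul_le_mul_of_nonneg_left hlog hM.le
      have := le_abs_self Q.c0
      nlinarith
    have hj0 : (0 : ℝ) < (j : ℝ) + 1 := by positivity
    have hj1 : 1 / ((j : ℝ) + 1) ≤ 1 := by
      rw [div_le_one hj0]
      have : (0 : ℝ) ≤ j := Nat.cast_nonneg j
      linarith
    calc (1 / ((j : ℝ) + 1)) * hh Q K j z ≤ (1 / ((j : ℝ) + 1)) * B :=
          mul_le_mul_of_nonneg_left hhB (by positivity)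
      _ ≤ 1 * B := mul_le_mul_of_nonneg_right hj1 hB0
      _ = B := one_mul B
  have hsum := Finset.sum_le_sum hterm
  rw [Finset.sum_const, Finset.card_range, nsmul_eq_mul] at hsum
  have hE := k_Xi_pow J (K J)
  set E : ℝ := 4 ^ ((J + 2) * (2 * K J + 2)) with hEdef
  have hE1 : 1 ≤ E := one_le_pow₀ (by norm_num)
  have hfin : ((J + 1 : ℕ) : ℝ) * B ≤ 64 * (4 * Q.M + |Q.c0|) * (((J : ℝ) + 3) * E) := by
    have hBE : B ≤ 64 * (4 * Q.M + |Q.c0|) * E := by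
      rw [hB]
      have a1 := mul_le_mul_of_nonneg_left hE (by positivity : 0 ≤ 2 * Q.M)
      have a2 := mul_le_mul_of_nonneg_left hE1 (abs_nonneg Q.c0)
      have a3 : 0 ≤ Q.M * E := by positivity
      nlinarith
    have hJJ : ((J + 1 : ℕ) : ℝ) ≤ (J : ℝ) + 3 := by push_cast; linarith
    calc ((J + 1 : ℕ) : ℝ) * B ≤ ((J : ℝ) + 3) * B := mul_le_mul_of_nonneg_right hJJ hB0
      _ ≤ ((J : ℝ) + 3) * (64 * (4 * Q.M + |Q.c0|) * E) :=
          mul_le_mul_of_nonneg_left hBE (by positivity)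
      _ = 64 * (4 * Q.M + |Q.c0|) * (((J : ℝ) + 3) * E) := by ring
  linarith

end Pool.Agent.Helper662.Rz
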