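import Pool.Agent.Helper662.Rz.Defs
import Pool.Agent.Helper662.Rz.P_k_P
import Pool.Agent.Helper662.Rz.P_k_Xi

set_option autoImplicit false
set_option linter.unusedVariables false

namespace Pool.Agent.Helper662.Rz
open Set Filter Topology ComplexConjugate Finset


theorem k_phi (Q : QD) {K : ℕ → ℕ} (hK : ∀ j, 4 ≤ K j) (hmono : Monotone K) (J : ℕ) {z : ℂ}
    (h1 : 2 ^ (J + 1) ≤ ‖z‖) (h2 : ‖z‖ ≤ 2 ^ (J + 1) * (6 / 5)) :
    phi Q K z ≤ (256 * Q.M + 64 * |Q.c0| + 1) * (((J : ℝ) + 3) * 4 ^ ((J + 2) * (2 * K J + 2)))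
      + (‖z‖ ^ 2 / 4 ^ (J + 1)) ^ (2 * K (J + 1) + 1)
      + (1 / ((J : ℝ) + 2)) * hh Q K (J + 1) z := by
  have a1 := k_P hK hmono J h1 h2
  have a2 := k_Xi Q hK hmono J h1 h2
  unfold phi
  calc ‖z‖ ^ 2 + P K (‖z‖ ^ 2) + Xi Q K z ≤ _ := add_le_add a1 a2
    _ = _ := by ring

end Pool.Agent.Helper662.Rz
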