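import Pool.Agent.Helper662.Rz.Defs
import Pool.Agent.Helper662.Rz.P_y_norm
import Pool.Agent.Helper662.Rz.P_x_far
import Pool.Agent.Helper662.Rz.P_k_phi

set_option autoImplicit false
set_option linter.unusedVariables false

namespace Pool.Agent.Helper662.Rz
open Set Filter Topology ComplexConjugate Finset


theorem k_circ (Q : QD) {K : ℕ → ℕ} (hK : ∀ j, 4 ≤ K j) (hmono : Monotone K) (J : ℕ) {z : ℂ}
    (h1 : ‖z‖ = 2 ^ (J + 1) * Real.exp (1 / (2 * (2 * (K (J + 1) : ℝ) + 1)))) :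
    phi Q K z ≤ (256 * Q.M + 64 * |Q.c0| + 1) * (((J : ℝ) + 3) * 4 ^ ((J + 2) * (2 * K J + 2)))
      + 3 + 64 * |Q.c0| + 64 * Q.M * (K (J + 1) : ℝ) / ((J : ℝ) + 2) := by
  have hM := Q.hM
  have hk4 : (4 : ℝ) ≤ (K (J + 1) : ℝ) := by exact_mod_cast hK (J + 1)
  set k : ℝ := (K (J + 1) : ℝ) with hk
  have hN : 0 < 2 * k + 1 := by linarith
  set e : ℝ := 1 / (2 * (2 * k + 1)) with he
  have he0 : 0 < e := by positivity
  have he1 : e ≤ 1 / 18 := by
    rw [he]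
    apply one_div_le_one_div_of_le (by norm_num)
    linarith
  have ha1 : 1 ≤ Real.exp e := Real.one_le_exp he0.le
  have ha2 : Real.exp e ≤ 6 / 5 := by
    have h2 : 1 - e ≤ Real.exp (-e) := by linarith [Real.add_one_le_exp (-e)]
    have h3 : Real.exp e * Real.exp (-e) = 1 := by rw [← Real.exp_add]; simp
    have h4 : 0 < Real.exp e := Real.exp_pos e
    nlinarith
  have h2J : (0 : ℝ) < 2 ^ (J + 1) := by positivity
  have b1 : 2 ^ (J + 1) ≤ ‖z‖ := by rw [h1]; nlinarith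
  have b2 : ‖z‖ ≤ 2 ^ (J + 1) * (6 / 5) := by
    rw [h1]; exact mul_le_mul_of_nonneg_left ha2 h2J.le
  have hphi := k_phi Q hK hmono J b1 b2
  have hdiv : ‖z‖ / 2 ^ (J + 1) = Real.exp e := by rw [h1]; field_simp
  have hdiv2 : ‖z‖ ^ 2 / 4 ^ (J + 1) = Real.exp e ^ 2 := by
    rw [← hdiv, div_pow, ← pow_mul, mul_comm (J + 1) 2, pow_mul]
    norm_num
  have hpow : (‖z‖ ^ 2 / 4 ^ (J + 1)) ^ (2 * K (J + 1) + 1) ≤ 3 := by
    rw [hdiv2, ← pow_mul, ← Real.exp_nat_mul]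
    have h5 : ((2 * (2 * K (J + 1) + 1) : ℕ) : ℝ) * e = 1 := by
      push_cast
      rw [he, ← hk]
      field_simp
    rw [h5]
    linarith [Real.exp_one_lt_d9]
  have hyn : ‖yy K (J + 1) z‖ = Real.exp (k ^ 2 * e) := by
    rw [(y_norm K (J + 1) z).2.1, hdiv, ← Real.exp_nat_mul]
    push_cast
    rfl
  have hke : k ^ 2 * e ≤ k / 2 := by
    rw [he, mul_one_div, div_le_div_iff₀ (by positivity) (by norm_num)]
    nlinarith
  have hke2 : 8 / 9 ≤ k ^ 2 * e := by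
    rw [he, mul_one_div, div_le_div_iff₀ (by norm_num) (by positivity)]
    nlinarith
  have hy2 : 2 ≤ ‖yy K (J + 1) z‖ := by
    rw [hyn]
    have h6 := Real.quadratic_le_exp_of_nonneg (show (0 : ℝ) ≤ k ^ 2 * e by linarith)
    nlinarith
  have hhh := (x_far Q (K := K) (j := J + 1) (z := z) (by have := hK (J + 1); omega)).2.1 hy2
  have hlog : Real.log (‖yy K (J + 1) z‖ ^ 2) = 2 * (k ^ 2 * e) := by
    rw [hyn, Real.log_pow, Real.log_exp]
    norm_num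
  have hle : hh Q K (J + 1) z ≤ 64 * Q.M * k + 64 * |Q.c0| := by
    rw [hhh, hlog]
    have h7 : Q.c0 ≤ |Q.c0| := le_abs_self _
    nlinarith
  have hJ : (0 : ℝ) < (J : ℝ) + 2 := by positivity
  have hlast : (1 / ((J : ℝ) + 2)) * hh Q K (J + 1) z ≤
      64 * |Q.c0| + 64 * Q.M * k / ((J : ℝ) + 2) := by
    have h8 : (1 / ((J : ℝ) + 2)) * hh Q K (J + 1) z ≤
        (1 / ((J : ℝ) + 2)) * (64 * Q.M * k + 64 * |Q.c0|) :=
      mul_le_mul_of_nonneg_left hle (by positivity)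
    have h9 : (1 / ((J : ℝ) + 2)) * (64 * Q.M * k + 64 * |Q.c0|) =
        64 * Q.M * k / ((J : ℝ) + 2) + 64 * |Q.c0| / ((J : ℝ) + 2) := by
      field_simp
    have h10 : 64 * |Q.c0| / ((J : ℝ) + 2) ≤ 64 * |Q.c0| := by
      apply div_le_self (by positivity)
      have : (0 : ℝ) ≤ J := Nat.cast_nonneg J
      linarith
    linarith
  linarith

end Pool.Agent.Helper662.Rz
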