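import Pool.Agent.Helper662.Rz.Defs
import Pool.Agent.Helper662.Rz.P_x_far
import Pool.Agent.Helper662.Rz.P_k_phi

set_option autoImplicit false
set_option linter.unusedVariables false

namespace Pool.Agent.Helper662.Rz
open Set Filter Topology ComplexConjugate Finset


theorem k_pt (Q : QD) {K : ℕ → ℕ} (hK : ∀ j, 4 ≤ K j) (hmono : Monotone K) (J : ℕ) {z : ℂ}
    (h1 : ‖z‖ = 2 ^ (J + 1)) (h2 : z ^ (K (J + 1) ^ 2) = (((2 ^ (J + 1)) ^ (K (J + 1) ^ 2) : ℝ) : ℂ)) :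
    phi Q K z ≤ (256 * Q.M + 64 * |Q.c0| + 1) * (((J : ℝ) + 3) * 4 ^ ((J + 2) * (2 * K J + 2)))
      + 1 + 64 * |Q.q 1| - 2 * Q.M * Real.log (K (J + 1)) / ((J : ℝ) + 2) := by
  have hp : (0 : ℝ) < 2 ^ (J + 1) := by positivity
  have hphi := k_phi Q hK hmono J (z := z) h1.ge (by rw [h1]; nlinarith)
  have e1 : ‖z‖ ^ 2 / 4 ^ (J + 1) = 1 := by
    rw [h1, show (4 : ℝ) = 2 ^ 2 by norm_num, ← pow_mul, ← pow_mul, mul_comm 2 (J + 1)]
    exact div_self (by positivity)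
  have e2 : yy K (J + 1) z = 1 := by
    unfold yy
    rw [div_pow, h2]
    push_cast
    exact div_self (pow_ne_zero _ (pow_ne_zero _ two_ne_zero))
  have hh' := (x_far Q (j := J + 1) (le_trans (by norm_num) (hK (J + 1))) (z := z)).2.2 e2
  rw [e1, one_pow, hh'] at hphi
  have hJ : (0 : ℝ) ≤ J := Nat.cast_nonneg J
  have hJ2 : (0 : ℝ) < (J : ℝ) + 2 := by linarith
  have h3 : (1 / ((J : ℝ) + 2)) * (64 * Q.q 1) ≤ 64 * |Q.q 1| := by
    have h4 : (1 / ((J : ℝ) + 2)) ≤ 1 := by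
      rw [div_le_one hJ2]; linarith
    have h5 : 0 ≤ 1 / ((J : ℝ) + 2) := by positivity
    calc (1 / ((J : ℝ) + 2)) * (64 * Q.q 1) ≤ (1 / ((J : ℝ) + 2)) * (64 * |Q.q 1|) := by
          apply mul_le_mul_of_nonneg_left _ h5
          linarith [le_abs_self (Q.q 1)]
      _ ≤ 1 * (64 * |Q.q 1|) := mul_le_mul_of_nonneg_right h4 (by positivity)
      _ = 64 * |Q.q 1| := one_mul _
  have h6 : (1 / ((J : ℝ) + 2)) * (64 * Q.q 1 - 2 * Q.M * Real.log (K (J + 1)))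
      = (1 / ((J : ℝ) + 2)) * (64 * Q.q 1) - 2 * Q.M * Real.log (K (J + 1)) / ((J : ℝ) + 2) := by
    ring
  rw [h6] at hphi
  linarith

end Pool.Agent.Helper662.Rz
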